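import Pool.Agent.Helper16.KUnb.Defs

set_option autoImplicit false

/-!
# Sparse states of knotoid diagrams: definitions
-/

namespace Pool.Agent.Helper16

namespace Sparse

open Knotoid

/-- The unions `Z` of cycles of the state graph of `s` which contain smoothings of both kinds
satisfy `e(Z) + 2 < 2 |A(Z) - B(Z)|`. -/
def MixedStrict {n : ℕ} (D : GaussDiagram n) (s : Fin n → Bool) : Prop :=
  ∀ Z : Finset (Fin n), D.IsCycleUnion s Z → 0 < GaussDiagram.num s true Z →
    0 < GaussDiagram.num s false Z →
    D.excess s Z + 2 < 2 * |(GaussDiagram.num s true Z : ℤ) - GaussDiagram.num s false Z|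

end Sparse

namespace Knotoid.GaussDiagram

variable {n : ℕ} (D : GaussDiagram n)

/-- The crossings `c` and `d` touch: some component of the state `s` is an end of both of them in
the state graph. -/
def Touch (s : Fin n → Bool) (c d : Fin n) : Prop :=
  ∃ q : Quot (D.Join s), (q = D.end₁ s c ∨ q = D.end₂ s c) ∧ (q = D.end₁ s d ∨ q = D.end₂ s d)

/-- The wrong crossings of `s` (where `s` has not the smoothing `X`) are far apart: switching a
right crossing does not increase the number of components, no wrong crossing is in a cycle of the
state graph with less than five crossings, and there are no crossings `d`, `d'` (equal or not) such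
that `c`, `d`, `d'`, `c'` touch successively, for different wrong crossings `c`, `c'`. -/
def FarApart (X : Bool) (s : Fin n → Bool) : Prop :=
  (∀ c, s c = X → D.comps (change s {c}) ≤ D.comps s) ∧
  (∀ c, s c ≠ X → ∀ C : Finset (Fin n), D.IsEven s C → c ∈ C → 5 ≤ C.card) ∧
  ∀ c c', s c ≠ X → s c' ≠ X → c ≠ c' → ∀ d d',
    ¬ (D.Touch s c d ∧ D.Touch s d d' ∧ D.Touch s d' c')

end Knotoid.GaussDiagram

end Pool.Agent.Helper16
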