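import Pool.Agent.Helper16.Sparse.Faces
import Pool.Agent.Helper39.Thirds.Gauss

set_option autoImplicit false

/-!
# Sums over the faces of a union of cycles in the state graph of a planar knotoid diagram
-/

namespace Pool.Agent.Helper16.Knotoid

namespace GaussDiagram

variable {n : ℕ} (D : GaussDiagram n)

/-- the regions are joined at the corners and at the crossings outside `Z` -/
def FRel (s : Fin n → Bool) (Z : Finset (Fin n)) (a b : Fin (2 * n + 1) × Bool) : Prop :=
  D.Corner a b ∨ ∃ c, c ∉ Z ∧ a = D.chA s c ∧ b = D.chB s c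

/-- the faces of `Z` -/
abbrev Fc (s : Fin n → Bool) (Z : Finset (Fin n)) : Type := Quot (D.FRel s Z)

variable {D} {s : Fin n → Bool} {Z : Finset (Fin n)}

open Classical in
/-- the boundary of a face of `Z` -/
noncomputable def bd (q : D.Fc s Z) : Finset (Fin n) :=
  Finset.univ.filter fun c =>
    (if Quot.mk (D.FRel s Z) (D.chA s c) = q then (1 : ZMod 2) else 0) ≠
      if Quot.mk (D.FRel s Z) (D.chB s c) = q then 1 else 0

theorem bd_even (q : D.Fc s Z) : D.IsEven s (bd q) := by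
  classical
  have h := D.even_psi (ψ := fun k => if Quot.mk (D.FRel s Z) k = q then (1 : ZMod 2) else 0)
    (by
      rw [mem_compat]
      intro a b hab
      beta_reduce
      have h' : Quot.mk (D.FRel s Z) a = Quot.mk _ b := Quot.sound (Or.inl hab)
      rw [h']) s
  exact h

theorem bd_subset (q : D.Fc s Z) : bd q ⊆ Z := by
  classical
  intro c hc
  by_contra hcZ
  have h := (Finset.mem_filter.1 hc).2
  have h' : Quot.mk (D.FRel s Z) (D.chA s c) = Quot.mk _ (D.chB s c) :=
    Quot.sound (Or.inr ⟨c, hcZ, rfl, rfl⟩)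
  rw [h'] at h
  exact h rfl

/-- a function on the faces for every even subset of `Z` -/
theorem exists_face (hD : D.Planar) {C : Finset (Fin n)} (hC : D.IsEven s C) (hCZ : C ⊆ Z) :
    ∃ g : D.Fc s Z → ZMod 2, ∀ c, c ∈ C ↔ g (Quot.mk _ (D.chA s c)) ≠
      g (Quot.mk _ (D.chB s c)) := by
  obtain ⟨ψ, hψ, h⟩ := D.exists_psi hD hC
  refine ⟨Quot.lift ψ ?_, h⟩
  rintro a b (hab | ⟨c, hc, rfl, rfl⟩)
  · exact (mem_compat.1 hψ) _ _ hab
  · by_contra hne
    exact hc (hCZ ((h c).2 hne))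

theorem face_ne (hD : D.Planar) (hZ : D.IsCycleUnion s Z) {c : Fin n} (hc : c ∈ Z) :
    (Quot.mk (D.FRel s Z) (D.chA s c)) ≠ Quot.mk _ (D.chB s c) := by
  obtain ⟨C, h1, h2, h3⟩ := hZ.2 c hc
  obtain ⟨g, hg⟩ := exists_face hD h2 h1
  intro h
  apply (hg c).1 h3
  rw [h]

theorem mem_bd (hD : D.Planar) (hZ : D.IsCycleUnion s Z) {c : Fin n} (hc : c ∈ Z)
    (q : D.Fc s Z) : c ∈ bd q ↔ q = Quot.mk _ (D.chA s c) ∨ q = Quot.mk _ (D.chB s c) := by
  classical
  have h := face_ne hD hZ hc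
  unfold bd
  rw [Finset.mem_filter]
  by_cases h1 : Quot.mk (D.FRel s Z) (D.chA s c) = q
  · have h2 : ¬ Quot.mk (D.FRel s Z) (D.chB s c) = q := fun h2 => h (h1.trans h2.symm)
    rw [if_pos h1, if_neg h2]
    simp [h1]
  · by_cases h2 : Quot.mk (D.FRel s Z) (D.chB s c) = q
    · rw [if_neg h1, if_pos h2]
      simp [h2]
    · rw [if_neg h1, if_neg h2]
      simp only [ne_eq, not_true_eq_false, and_false, false_iff, not_or]
      exact ⟨fun h' => h1 h'.symm, fun h' => h2 h'.symm⟩

/-- right minus wrong smoothings -/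
def fwt (s : Fin n → Bool) (X : Bool) (C : Finset (Fin n)) : ℤ :=
  ∑ c ∈ C, if s c = X then 1 else -1

theorem fwt_eq (s : Fin n → Bool) (X : Bool) (C : Finset (Fin n)) :
    fwt s X C = (num s X C : ℤ) - num s (!X) C := by
  classical
  unfold fwt num
  rw [Finset.card_filter, Finset.card_filter]
  push_cast
  rw [← Finset.sum_sub_distrib]
  refine Finset.sum_congr rfl fun c _ => ?_
  cases s c <;> cases X <;> simp

/-- every crossing of `Z` is on the boundary of two faces -/
theorem sum_fwt [Fintype (D.Fc s Z)] (hD : D.Planar) (hZ : D.IsCycleUnion s Z) (X : Bool) :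
    ∑ q : D.Fc s Z, fwt s X (bd q) = 2 * fwt s X Z := by
  classical
  have h1 : ∀ q : D.Fc s Z, fwt s X (bd q) =
      ∑ c ∈ Z, if c ∈ bd q then (if s c = X then (1 : ℤ) else -1) else 0 := by
    intro q
    unfold fwt
    rw [Finset.sum_ite_mem, Finset.inter_eq_right.2 (bd_subset q)]
  rw [Finset.sum_congr rfl fun q _ => h1 q, Finset.sum_comm]
  unfold fwt
  rw [Finset.mul_sum]
  refine Finset.sum_congr rfl fun c hc => ?_
  have h2 : ∀ q : D.Fc s Z, (if c ∈ bd q then (if s c = X then (1 : ℤ) else -1) else 0) =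
      (if q = Quot.mk _ (D.chA s c) then (if s c = X then (1 : ℤ) else -1) else 0) +
        if q = Quot.mk _ (D.chB s c) then (if s c = X then (1 : ℤ) else -1) else 0 := by
    intro q
    have h3 := mem_bd hD hZ hc q
    have h4 := face_ne hD hZ hc
    by_cases h5 : q = Quot.mk _ (D.chA s c)
    · have h6 : ¬ q = Quot.mk _ (D.chB s c) := fun h => h4 (h5.symm.trans h)
      rw [if_pos (h3.2 (Or.inl h5)), if_pos h5, if_neg h6, add_zero]
    · by_cases h6 : q = Quot.mk _ (D.chB s c)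
      · rw [if_pos (h3.2 (Or.inr h6)), if_neg h5, if_pos h6, zero_add]
      · rw [if_neg (fun h => (h3.1 h).elim h5 h6), if_neg h5, if_neg h6, add_zero]
  rw [Finset.sum_congr rfl fun q _ => h2 q, Finset.sum_add_distrib, Finset.sum_ite_eq',
    Finset.sum_ite_eq', if_pos (Finset.mem_univ _), if_pos (Finset.mem_univ _)]
  ring

open Classical in
/-- the number of faces with nonempty boundary -/
noncomputable def fcs [Fintype (D.Fc s Z)] : Finset (D.Fc s Z) :=
  Finset.univ.filter fun q => (bd q).Nonempty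

theorem evenCount_le [Fintype (D.Fc s Z)] (hD : D.Planar) (hZ : D.IsCycleUnion s Z) :
    2 * D.evenCount s Z ≤ 2 ^ (fcs (D := D) (s := s) (Z := Z)).card := by
  classical
  set Q := fcs (D := D) (s := s) (Z := Z) with hQ
  have hmem : ∀ c ∈ Z, (Quot.mk (D.FRel s Z) (D.chA s c)) ∈ Q ∧
      (Quot.mk (D.FRel s Z) (D.chB s c)) ∈ Q := fun c hc =>
    ⟨Finset.mem_filter.2 ⟨Finset.mem_univ _, c, (mem_bd hD hZ hc _).2 (Or.inl rfl)⟩,
      Finset.mem_filter.2 ⟨Finset.mem_univ _, c, (mem_bd hD hZ hc _).2 (Or.inr rfl)⟩⟩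
  set E := Z.powerset.filter fun C => D.IsEven s C with hE
  have hE' : ∀ C : {C // C ∈ E}, ∃ g : D.Fc s Z → ZMod 2, ∀ c, c ∈ C.1 ↔
      g (Quot.mk _ (D.chA s c)) ≠ g (Quot.mk _ (D.chB s c)) := by
    intro C
    obtain ⟨h1, h2⟩ := Finset.mem_filter.1 C.2
    exact exists_face hD h2 (Finset.mem_powerset.1 h1)
  choose g hg using hE'
  have hinj : Function.Injective (fun (p : {C // C ∈ E} × ZMod 2) =>
      fun (q : {q // q ∈ Q}) => g p.1 q.1 + p.2) := by
    rintro ⟨C, b⟩ ⟨C', b'⟩ h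
    have h1 : ∀ q ∈ Q, g C q + b = g C' q + b' := fun q hq => congrFun h ⟨q, hq⟩
    have h2 : C = C' := by
      apply Subtype.ext
      ext c
      have key : ∀ x y b x' y' b' : ZMod 2, x + b = x' + b' → y + b = y' + b' →
          (x ≠ y ↔ x' ≠ y') := by decide
      have hCZ : ∀ C : {C // C ∈ E}, c ∈ C.1 → c ∈ Z := fun C hc =>
        Finset.mem_powerset.1 (Finset.mem_filter.1 C.2).1 hc
      by_cases hc : c ∈ Z
      · rw [hg C c, hg C' c]
        exact key _ _ _ _ _ _ (h1 _ (hmem c hc).1) (h1 _ (hmem c hc).2)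
      · exact ⟨fun h => absurd (hCZ C h) hc, fun h => absurd (hCZ C' h) hc⟩
    subst h2
    obtain ⟨c, hc⟩ := hZ.1
    have h3 := h1 _ (hmem c hc).1
    rw [add_left_cancel h3]
  have hcard := Fintype.card_le_of_injective _ hinj
  rw [Fintype.card_prod, ZMod.card, Fintype.card_coe, Fintype.card_fun, ZMod.card,
    Fintype.card_coe] at hcard
  have h4 : D.evenCount s Z = E.card := rfl
  rw [h4, mul_comm]
  exact hcard

end GaussDiagram

end Pool.Agent.Helper16.Knotoid
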