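import Pool.Agent.Helper16.Sparse.PrevDefs
import Pool.Agent.Helper16.Sparse.FarDefs
import Pool.Agent.Helper16.Sparse.FaceSum

set_option autoImplicit false

/-!
# States of planar knotoid diagrams in which a smoothing prevails are unbalanced
-/

namespace Pool.Agent.Helper16.Sparse

open Knotoid Knotoid.GaussDiagram
open Pool.Agent.Helper39.Thirds (exn_sub exn_add evens fam_evens exists_circuit)

variable {n : ℕ} {D : GaussDiagram n} {s : Fin n → Bool}

theorem fwt_empty (X : Bool) : fwt s X ∅ = 0 := Finset.sum_empty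

theorem face_bound (hD : D.Planar) {X : Bool} {Z : Finset (Fin n)} (hZ : D.IsCycleUnion s Z)
    (hl : ∀ c ∈ Z, ¬ D.IsEven s {c})
    (h : ∀ C : Finset (Fin n), D.IsEven s C → 0 < num s (!X) C →
      num s (!X) C + 3 ≤ num s X C) :
    (D.exn s Z : ℤ) + 2 ≤ 2 * fwt s X Z ∧
    (0 < num s (!X) Z → (D.exn s Z : ℤ) + 4 ≤ 2 * fwt s X Z) := by
  classical
  have : Fintype (D.Fc s Z) := Fintype.ofFinite _
  set Q := fcs (D := D) (s := s) (Z := Z) with hQ
  have h1 : D.exn s Z + 2 ≤ 2 * Q.card := by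
    have h2 := evenCount_le (D := D) (s := s) (Z := Z) hD hZ
    have h3 := D.two_pow_exn_le s Z
    have h4 : 2 ^ (D.exn s Z + 2) ≤ 2 ^ (2 * Q.card) := by
      calc 2 ^ (D.exn s Z + 2) = 4 * 2 ^ D.exn s Z := by rw [pow_add]; ring
        _ ≤ 4 * D.evenCount s Z ^ 2 := Nat.mul_le_mul_left 4 h3
        _ = (2 * D.evenCount s Z) ^ 2 := by ring
        _ ≤ (2 ^ Q.card) ^ 2 := Nat.pow_le_pow_left h2 2
        _ = 2 ^ (2 * Q.card) := by rw [← pow_mul, mul_comm]
    exact (Nat.pow_le_pow_iff_right (by norm_num)).1 h4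
  have h2 : 2 * fwt s X Z = ∑ q ∈ Q, fwt s X (bd q) := by
    rw [← sum_fwt hD hZ X]
    symm
    refine Finset.sum_subset (Finset.subset_univ Q) fun q _ hq => ?_
    have h3 : bd q = ∅ := by
      rw [← Finset.not_nonempty_iff_eq_empty]
      exact fun h3 => hq (Finset.mem_filter.2 ⟨Finset.mem_univ _, h3⟩)
    rw [h3, fwt_empty]
  have hmix : ∀ q ∈ Q, 0 < num s (!X) (bd q) → 3 ≤ fwt s X (bd q) := by
    intro q _ h3
    have h4 := h _ (bd_even q) h3
    rw [fwt_eq]
    omega
  have htwo : ∀ q ∈ Q, 2 ≤ fwt s X (bd q) := by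
    intro q hq
    rcases Nat.eq_zero_or_pos (num s (!X) (bd q)) with h3 | h3
    · have h4 := Pool.Agent.Helper39.Thirds.num_add (s := s) X (bd q)
      have h5 : (bd q).Nonempty := (Finset.mem_filter.1 hq).2
      have h6 : (bd q).card ≠ 1 := by
        intro h6
        obtain ⟨c, hc⟩ := Finset.card_eq_one.1 h6
        refine hl c (bd_subset q (hc ▸ Finset.mem_singleton_self c)) ?_
        rw [← hc]
        exact bd_even q
      have h7 := Finset.card_pos.2 h5
      rw [fwt_eq]
      omega
    · have := hmix q hq h3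
      omega
  have hsum : ∑ q ∈ Q, fwt s X (bd q) = ∑ q ∈ Q, (fwt s X (bd q) - 2) + 2 * Q.card := by
    rw [Finset.sum_sub_distrib, Finset.sum_const, nsmul_eq_mul]
    ring
  have h0 : 0 ≤ ∑ q ∈ Q, (fwt s X (bd q) - 2) := Finset.sum_nonneg fun q hq => by
    have := htwo q hq
    omega
  refine ⟨by omega, fun hw => ?_⟩
  obtain ⟨c, hc⟩ := Finset.card_pos.1 (show 0 < (Z.filter fun c => s c = !X).card from hw)
  rw [Finset.mem_filter] at hc
  set a : D.Fc s Z := Quot.mk _ (D.chA s c) with ha
  set b : D.Fc s Z := Quot.mk _ (D.chB s c) with hb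
  have hab : a ≠ b := face_ne hD hZ hc.1
  have hca : c ∈ bd a := (mem_bd hD hZ hc.1 _).2 (Or.inl rfl)
  have hcb : c ∈ bd b := (mem_bd hD hZ hc.1 _).2 (Or.inr rfl)
  have haQ : a ∈ Q := Finset.mem_filter.2 ⟨Finset.mem_univ _, c, hca⟩
  have hbQ : b ∈ Q := Finset.mem_filter.2 ⟨Finset.mem_univ _, c, hcb⟩
  have hpos : ∀ q : D.Fc s Z, c ∈ bd q → 0 < num s (!X) (bd q) := fun q hq =>
    Finset.card_pos.2 ⟨c, Finset.mem_filter.2 ⟨hq, hc.2⟩⟩
  have h3 := hmix a haQ (hpos a hca)
  have h4 := hmix b hbQ (hpos b hcb)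
  have h5 : ∑ q ∈ ({a, b} : Finset (D.Fc s Z)), (fwt s X (bd q) - 2) ≤
      ∑ q ∈ Q, (fwt s X (bd q) - 2) := by
    refine Finset.sum_le_sum_of_subset_of_nonneg ?_ fun q hq _ => ?_
    · intro q hq
      rcases Finset.mem_insert.1 hq with hq | hq
      · exact hq ▸ haQ
      · exact (Finset.mem_singleton.1 hq) ▸ hbQ
    · have := htwo q hq
      omega
  rw [Finset.sum_pair hab] at h5
  omega

theorem fwt_le_abs (X : Bool) (Z : Finset (Fin n)) :
    fwt s X Z ≤ |(num s true Z : ℤ) - num s false Z| := by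
  rw [fwt_eq]
  cases X
  · rw [abs_sub_comm]
    exact le_abs_self _
  · exact le_abs_self _

theorem prev_bound (hD : D.Planar) {X : Bool} (h : Prevails D X s) {Z : Finset (Fin n)}
    (hZ : D.IsCycleUnion s Z) : (D.exn s Z : ℤ) + 1 ≤ 2 * fwt s X Z ∧
    (0 < num s (!X) Z → (D.exn s Z : ℤ) + 4 ≤ 2 * fwt s X Z) := by
  classical
  set L : Finset (Fin n) := Z.filter fun c => D.IsEven s {c} with hL
  set Z' : Finset (Fin n) := Z.filter fun c => ¬ D.IsEven s {c} with hZ'
  have hZZ : Z' ⊆ Z := Finset.filter_subset _ _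
  have hUn : L ∪ Z' = Z := Finset.filter_union_filter_not_eq _ _
  have hdis : Disjoint L Z' := Finset.disjoint_filter_filter_not _ _ _
  -- loops are right
  have hright : ∀ c ∈ L, s c = X := by
    intro c hc
    by_contra hne
    have h1 : s c = !X := by
      revert hne
      cases s c <;> cases X <;> simp
    have h2 : num s (!X) {c} = 1 := by
      unfold num
      rw [Finset.filter_true_of_mem, Finset.card_singleton]
      intro y hy
      rw [Finset.mem_singleton.1 hy]
      exact h1
    have h3 := h.2 {c} (Finset.mem_filter.1 hc).2 (by omega)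
    have h4 : num s X {c} ≤ ({c} : Finset (Fin n)).card := Finset.card_filter_le _ _
    rw [Finset.card_singleton] at h4
    omega
  have hfL : fwt s X L = L.card := by
    unfold fwt
    rw [Finset.sum_congr rfl fun c hc => if_pos (hright c hc), Finset.sum_const, nsmul_eq_mul,
      mul_one]
  have hfZ : fwt s X Z = L.card + fwt s X Z' := by
    rw [← hfL, ← hUn]
    exact Finset.sum_union hdis
  have hadd := exn_add (D := D) (s := s) L Z'
  rw [hUn] at hadd
  have hnum : num s (!X) Z = num s (!X) Z' := by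
    unfold num
    congr 1
    ext c
    rw [Finset.mem_filter, Finset.mem_filter]
    refine ⟨fun ⟨h1, h2⟩ => ⟨Finset.mem_filter.2 ⟨h1, fun h3 => ?_⟩, h2⟩,
      fun ⟨h1, h2⟩ => ⟨hZZ h1, h2⟩⟩
    have h4 := hright c (Finset.mem_filter.2 ⟨h1, h3⟩)
    rw [h2] at h4
    cases X <;> simp at h4
  rcases Finset.eq_empty_or_nonempty Z' with h0 | h0
  · have hLZ : L = Z := by rw [← hUn, h0, Finset.union_empty]
    obtain ⟨c, hc⟩ := hZ.1
    have h1 := exn_sub (D := D) (s := s) (Finset.singleton_subset_iff.2 hc)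
    have h2 : D.exn s {c} ≤ 1 := by
      have h3 := h.1 c
      unfold exn
      rw [Finset.card_singleton]
      omega
    rw [Finset.card_singleton] at h1
    rw [hfZ, h0, fwt_empty, hLZ]
    refine ⟨by omega, fun h3 => ?_⟩
    rw [hnum, h0] at h3
    exact absurd h3 (lt_irrefl 0)
  · have hZ'c : D.IsCycleUnion s Z' := by
      refine ⟨h0, fun c hc => ?_⟩
      obtain ⟨C, h1, h2, h3⟩ := hZ.2 c (hZZ hc)
      obtain ⟨K, hK, hKC, hcK, hind⟩ := exists_circuit (fam_evens (D := D) (s := s) Z)
        (C := C) ⟨h1, h2⟩ h3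
      refine ⟨K, fun d hd => Finset.mem_filter.2 ⟨hK.1 hd, fun h4 => ?_⟩, hK.2, hcK⟩
      by_cases hdc : d = c
      · rw [hdc] at h4
        exact (Finset.mem_filter.1 hc).2 h4
      · have h5 := hind {d} ⟨Finset.singleton_subset_iff.2 (hK.1 hd), h4⟩
          (Finset.singleton_subset_iff.2 (Finset.mem_erase.2 ⟨hdc, hd⟩))
        exact Finset.singleton_ne_empty d h5
    obtain ⟨h1, h2⟩ := face_bound hD hZ'c (fun c hc => (Finset.mem_filter.1 hc).2) h.2
    rw [hfZ, hnum]
    refine ⟨by omega, fun h3 => ?_⟩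
    have := h2 h3
    omega

/-- A prevailing state of a planar knotoid diagram is unbalanced, strictly on mixed sets. -/
theorem Prevails.unbalanced (hD : D.Planar) {X : Bool} (h : Prevails D X s) :
    D.Unbalanced s ∧ MixedStrict D s := by
  refine ⟨fun Z hZ => ?_, fun Z hZ ht hf => ?_⟩
  · have h1 := (prev_bound hD h hZ).1
    have h2 := fwt_le_abs (s := s) X Z
    rw [← D.exn_eq]
    omega
  · have h1 := (prev_bound hD h hZ).2 (by
      cases X
      · simpa using ht
      · simpa using hf)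
    have h2 := fwt_le_abs (s := s) X Z
    rw [← D.exn_eq]
    omega

/-- The state all of whose smoothings are `X` in a weakly adequate diagram is prevailing. -/
theorem Prevails.of_adequate {X : Bool} (h : D.Adequate X) : Prevails D X fun _ => X := by
  classical
  have h0 : ∀ C : Finset (Fin n), num (fun _ => X) (!X) C = 0 := by
    intro C
    unfold num
    rw [Finset.card_eq_zero, Finset.filter_eq_empty_iff]
    intro c _ hc
    cases X <;> simp at hc
  refine ⟨fun c => ?_, fun C _ hC => ?_⟩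
  · have h1 := h c
    have h2 : change (fun _ => X) {c} = Function.update (fun _ => X) c (!X) := by
      funext d
      unfold change
      by_cases hd : d = c
      · rw [hd, Function.update_self, if_pos (Finset.mem_singleton_self c)]
      · rw [Function.update_of_ne hd, if_neg (by rwa [Finset.mem_singleton])]
    rw [h2]
    exact h1
  · rw [h0] at hC
    exact absurd hC (lt_irrefl 0)

end Pool.Agent.Helper16.Sparse
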