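import Pool.Agent.Helper16.Sparse.St
import Pool.Agent.Helper16.Knotoid.Core

set_option autoImplicit false

/-!
# Sparse states: the combinatorics of the defects
-/

namespace Pool.Agent.Helper16.Sparse

open Pool.Agent.Helper16.Knotoid
open scoped symmDiff

/-- sets of defect two without loops are the nonempty sets contained in a parallelism class -/
private theorem defectTwo {ι : Type*} [Fintype ι] [DecidableEq ι] {M : Matrix ι ι (ZMod 2)}
    {T S : Finset ι} (hA : Adapted M T) (hnl : ∀ e ∈ S, e ∉ T → ∃ t ∈ T, M t e = 1) :
    defect M T S = 2 ↔ S.Nonempty ∧ ∀ e ∈ S, ∀ f ∈ S, key M T e = key M T f := by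
  constructor
  · intro h
    have hne : S.Nonempty := by
      by_contra h'
      rw [Finset.not_nonempty_iff_eq_empty] at h'
      rw [h', hA.defect_empty] at h
      omega
    refine ⟨hne, ?_⟩
    have hcard : (S ∩ T).card ≤ 1 := by
      unfold defect at h
      omega
    rcases Nat.lt_or_ge (S ∩ T).card 1 with h0 | h1
    · -- no tree crossing in S
      have h0' : (S ∩ T).card = 0 := by omega
      have hrk : rk M (T ∆ S) = 2 := by
        unfold defect at h
        omega
      have hdis : ∀ e ∈ S, e ∉ T := fun e he heT => by
        have : e ∈ S ∩ T := Finset.mem_inter.2 ⟨he, heT⟩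
        rw [Finset.card_eq_zero.1 h0'] at this
        simp at this
      have hS : ∀ e ∈ S, e ∈ T ∆ S := fun e he => Finset.mem_symmDiff.2 (Or.inr ⟨he, hdis e he⟩)
      have hT : ∀ t ∈ T, t ∈ T ∆ S := fun t ht =>
        Finset.mem_symmDiff.2 (Or.inl ⟨ht, fun h' => hdis t h' ht⟩)
      -- tree neighbours agree
      have hsub : ∀ e ∈ S, ∀ f ∈ S, ∀ t ∈ T, M t e = 1 → M t f = 1 := by
        intro e he f hf t ht h1
        by_contra h2
        rw [← ne_eq, zmod2_ne_one] at h2
        obtain ⟨t', ht', h3⟩ := hnl f hf (hdis f hf)
        have h4 := three_le_rk (M := M) (hT t ht) (hT t' ht') (hS e he) (hS e he) (hS f hf)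
          (hT t ht) (by
            rw [h1, h2, h3, hA.symm e t, h1, hA.tree t ht t ht, hA.tree t' ht' t ht]
            simp)
        omega
      have hdiag : ∀ e ∈ S, ∀ f ∈ S, M e e = 1 → M f f = 1 := by
        intro e he f hf h1
        by_contra h2
        rw [← ne_eq, zmod2_ne_one] at h2
        obtain ⟨t, ht, h3⟩ := hnl e he (hdis e he)
        have h4 := hsub e he f hf t ht h3
        have h5 := three_le_rk (M := M) (hT t ht) (hS e he) (hS f hf) (hT t ht) (hS e he)
          (hS f hf) (by
            rw [hA.symm e t, hA.symm f t, h3, h4, h1, h2, hA.tree t ht t ht, hA.symm f e]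
            rcases zmod2_cases (M e f) with h6 | h6 <;> rw [h6] <;> decide)
        omega
      intro e he f hf
      rw [hA.key_of_notMem (hdis e he), hA.key_of_notMem (hdis f hf)]
      refine Prod.ext ?_ ?_
      · ext t
        simp only [Finset.mem_filter]
        exact ⟨fun h => ⟨h.1, hsub e he f hf t h.1 h.2⟩, fun h => ⟨h.1, hsub f hf e he t h.1 h.2⟩⟩
      · show M e e = M f f
        rcases zmod2_cases (M e e) with h1 | h1
        · rcases zmod2_cases (M f f) with h2 | h2
          · rw [h1, h2]
          · rw [hdiag f hf e he h2, h2]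
        · rw [hdiag e he f hf h1, h1]
    · -- one tree crossing in S
      have h1' : (S ∩ T).card = 1 := by omega
      have hrk : rk M (T ∆ S) = 0 := by
        unfold defect at h
        omega
      obtain ⟨t, ht⟩ := Finset.card_eq_one.1 h1'
      have htST : t ∈ S ∩ T := by rw [ht]; simp
      have htT : t ∈ T := (Finset.mem_inter.1 htST).2
      have hkey : ∀ e ∈ S, key M T e = ({t}, 0) := by
        intro e he
        by_cases heT : e ∈ T
        · have : e ∈ S ∩ T := Finset.mem_inter.2 ⟨he, heT⟩
          rw [ht, Finset.mem_singleton] at this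
          rw [hA.key_of_mem heT, this]
        · have hU : e ∈ T ∆ S := Finset.mem_symmDiff.2 (Or.inr ⟨he, heT⟩)
          rw [hA.key_of_notMem heT]
          have hsub : T.filter (fun s => M s e = 1) ⊆ {t} := by
            intro s hs
            rw [Finset.mem_filter] at hs
            by_contra hst
            rw [Finset.mem_singleton] at hst
            have hsS : s ∉ S := fun h' => by
              have : s ∈ S ∩ T := Finset.mem_inter.2 ⟨h', hs.1⟩
              rw [ht, Finset.mem_singleton] at this
              exact hst this
            have := one_le_rk (M := M) (Finset.mem_symmDiff.2 (Or.inl ⟨hs.1, hsS⟩)) hU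
              (by rw [hs.2]; simp)
            omega
          have hdiag : M e e = 0 := by
            by_contra h1
            have := one_le_rk (M := M) hU hU h1
            omega
          refine Prod.ext ?_ hdiag
          obtain ⟨s, hs, h1⟩ := hnl e he heT
          refine Finset.Subset.antisymm hsub ?_
          have hs' : s ∈ T.filter (fun s => M s e = 1) := Finset.mem_filter.2 ⟨hs, h1⟩
          have := hsub hs'
          rw [Finset.mem_singleton] at this
          rw [← this, Finset.singleton_subset_iff]
          exact hs'
      intro e he f hf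
      rw [hkey e he, hkey f hf]
  · rintro ⟨hne, hkey⟩
    have h2 : 2 ≤ defect M T S := by
      have h1 := hA.one_le_defect hne
      have h2 : defect M T S ≠ 1 := fun h => by
        obtain ⟨⟨e, he⟩, hsub, -⟩ := hA.defect_eq_one.1 h
        have h3 := hsub he
        simp only [loops, Finset.mem_filter, Finset.mem_univ, true_and] at h3
        obtain ⟨t, ht, h4⟩ := hnl e he h3.1
        rw [h3.2 t ht] at h4
        simp at h4
      omega
    have hle : defect M T S ≤ 2 := by
      by_cases hST : (S ∩ T).Nonempty
      · obtain ⟨t, ht⟩ := hST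
        rw [Finset.mem_inter] at ht
        have hk : ∀ e ∈ S, key M T e = ({t}, 0) := fun e he => by
          rw [hkey e he t ht.1, hA.key_of_mem ht.2]
        have h1 : S ∩ T = {t} := by
          ext e
          rw [Finset.mem_inter, Finset.mem_singleton]
          constructor
          · rintro ⟨he, heT⟩
            have h3 := hk e he
            rw [hA.key_of_mem heT, Prod.mk.injEq, Finset.singleton_inj] at h3
            exact h3.1
          · rintro rfl
            exact ht
        have hrow : ∀ e ∈ S, e ∉ T → (∀ s ∈ T, s ≠ t → M s e = 0) ∧ M t e = 1 ∧ M e e = 0 := by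
          intro e he heT
          have h3 := hk e he
          rw [hA.key_of_notMem heT, Prod.mk.injEq] at h3
          refine ⟨fun s hs hst => ?_, ?_, h3.2⟩
          · by_contra h4
            have : s ∈ T.filter (fun s => M s e = 1) :=
              Finset.mem_filter.2 ⟨hs, zmod2_ne_zero.1 h4⟩
            rw [h3.1, Finset.mem_singleton] at this
            exact hst this
          · have : t ∈ T.filter (fun s => M s e = 1) := by rw [h3.1]; simp
            exact (Finset.mem_filter.1 this).2
        have h4 : rk M (T ∆ S) = 0 := by
          refine rk_eq_zero_of ?_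
          intro e he f hf
          rw [Finset.mem_symmDiff] at he hf
          rcases he with ⟨he, he'⟩ | ⟨he, he'⟩ <;> rcases hf with ⟨hf, hf'⟩ | ⟨hf, hf'⟩
          · exact hA.tree e he f hf
          · exact (hrow f hf hf').1 e he (fun h => he' (h ▸ ht.1))
          · rw [hA.symm e f]
            exact (hrow e he he').1 f hf (fun h => hf' (h ▸ ht.1))
          · by_cases hef : e = f
            · rw [← hef]
              exact (hrow e he he').2.2
            · exact hA.planar₀ t ht.2 e f hef (hrow e he he').2.1 (hrow f hf hf').2.1
                (hrow e he he').2.2 (hrow f hf hf').2.2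
        unfold defect
        rw [h1, h4, Finset.card_singleton]
      · rw [Finset.not_nonempty_iff_eq_empty] at hST
        have hdis : ∀ e ∈ S, e ∉ T := fun e he heT => by
          have : e ∈ S ∩ T := Finset.mem_inter.2 ⟨he, heT⟩
          rw [hST] at this
          simp at this
        obtain ⟨e₀, he₀⟩ := hne
        obtain ⟨t, ht, h1⟩ := hnl e₀ he₀ (hdis e₀ he₀)
        have hrow : ∀ e ∈ S, (∀ s ∈ T, M s e = M s e₀) ∧ M e e = M e₀ e₀ := by
          intro e he
          have h3 := hkey e he e₀ he₀
          rw [hA.key_of_notMem (hdis e he), hA.key_of_notMem (hdis e₀ he₀), Prod.mk.injEq] at h3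
          refine ⟨fun s hs => ?_, h3.2⟩
          have h4 : s ∈ T.filter (fun t => M t e = 1) ↔ s ∈ T.filter (fun t => M t e₀ = 1) := by
            rw [h3.1]
          simp only [Finset.mem_filter, hs, true_and] at h4
          rcases zmod2_cases (M s e₀) with h5 | h5
          · rw [h5, ← zmod2_ne_one]
            intro h6
            rw [h4.1 h6] at h5
            simp at h5
          · rw [h5, h4.2 h5]
        have hte : ∀ e ∈ S, M t e = 1 := fun e he => by rw [(hrow e he).1 t ht, h1]
        have hrk : rk M (T ∆ S) ≤ 2 := by
          rcases zmod2_cases (M e₀ e₀) with hd | hd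
          · -- diagonal zero
            refine rk_le_two_of (fun e => if e ∈ S then 1 else 0)
              (fun f => if f ∈ S then 0 else M f e₀)
              (fun e => if e ∈ S then 0 else M e e₀) (fun f => if f ∈ S then 1 else 0) ?_
            intro e he f hf
            rw [Finset.mem_symmDiff] at he hf
            rcases he with ⟨he, he'⟩ | ⟨he, he'⟩ <;> rcases hf with ⟨hf, hf'⟩ | ⟨hf, hf'⟩
            · simp [he', hf', hA.tree e he f hf]
            · simp [he', hf, (hrow f hf).1 e he]
            · rw [hA.symm e f]
              simp [he, hf', (hrow e he).1 f hf]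
            · simp only [he, hf, if_true]
              by_cases hef : e = f
              · rw [← hef, (hrow e he).2, hd]
                simp
              · rw [hA.planar₀ t ht e f hef (hte e he) (hte f hf) (by rw [(hrow e he).2, hd])
                  (by rw [(hrow f hf).2, hd])]
                simp
          · -- diagonal one
            obtain ⟨s, hs⟩ := hA.planar₁ t ht
            refine rk_le_two_of (fun e => if e ∈ S then 1 else 0)
              (fun f => if f ∈ S then 1 + s f else M f e₀)
              (fun e => if e ∈ S then s e else M e e₀) (fun f => if f ∈ S then 1 else 0) ?_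
            intro e he f hf
            rw [Finset.mem_symmDiff] at he hf
            rcases he with ⟨he, he'⟩ | ⟨he, he'⟩ <;> rcases hf with ⟨hf, hf'⟩ | ⟨hf, hf'⟩
            · simp [he', hf', hA.tree e he f hf]
            · simp [he', hf, (hrow f hf).1 e he]
            · rw [hA.symm e f]
              simp [he, hf', (hrow e he).1 f hf]
            · simp only [he, hf, if_true]
              by_cases hef : e = f
              · rw [← hef, (hrow e he).2, hd]
                rcases zmod2_cases (s e) with h6 | h6 <;> rw [h6] <;> decide
              · rw [hs e f hef (hte e he) (hte f hf) (by rw [(hrow e he).2, hd])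
                  (by rw [(hrow f hf).2, hd])]
                ring
        unfold defect
        rw [hST, Finset.card_empty]
        omega
    omega

/-- alternating sum over the nonempty subsets of `P` contained in a fibre -/
private theorem sumFibres {ι : Type*} [DecidableEq ι] {β : Type*} [DecidableEq β] (κ : ι → β)
    (P : Finset ι)
    [DecidablePred fun S : Finset ι => S.Nonempty ∧ ∀ e ∈ S, ∀ f ∈ S, κ e = κ f] :
    ∑ S ∈ P.powerset.filter
      (fun S => S.Nonempty ∧ ∀ e ∈ S, ∀ f ∈ S, κ e = κ f), (-1 : ℤ) ^ S.card =
      -((P.image κ).card : ℤ) := by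
  classical
  have h1 : P.powerset.filter
      (fun S => S.Nonempty ∧ ∀ e ∈ S, ∀ f ∈ S, κ e = κ f) =
      (P.image κ).biUnion
        (fun k => (P.filter (fun e => κ e = k)).powerset.erase ∅) := by
    ext S
    simp only [Finset.mem_filter, Finset.mem_biUnion,
      Finset.mem_image, Finset.mem_erase, Finset.mem_powerset, exists_exists_and_eq_and]
    constructor
    · rintro ⟨hS, ⟨e, he⟩, h⟩
      refine ⟨e, hS he, fun h' => by simp [h'] at he, fun f hf => ?_⟩
      rw [Finset.mem_filter]
      exact ⟨hS hf, h f hf e he⟩
    · rintro ⟨e, heP, hne, hsub⟩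
      refine ⟨fun a ha => (Finset.mem_filter.1 (hsub ha)).1,
        Finset.nonempty_iff_ne_empty.2 hne, fun a ha b hb => ?_⟩
      rw [(Finset.mem_filter.1 (hsub ha)).2, (Finset.mem_filter.1 (hsub hb)).2]
  rw [h1, Finset.sum_biUnion]
  · have h2 : ∀ k ∈ P.image κ,
        ∑ S ∈ (P.filter (fun e => κ e = k)).powerset.erase ∅, (-1 : ℤ) ^ S.card =
          -1 := by
      intro k hk
      obtain ⟨e, he, rfl⟩ := Finset.mem_image.1 hk
      have h3 := Finset.sum_powerset_neg_one_pow_card (x := P.filter (fun f => κ f = κ e))
      rw [if_neg, ← Finset.add_sum_erase _ _ (Finset.empty_mem_powerset _)] at h3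
      · simp only [Finset.card_empty, pow_zero] at h3
        linarith
      · intro h4
        have : e ∈ P.filter (fun f => κ f = κ e) := by simp [he]
        rw [h4] at this
        simp at this
    rw [Finset.sum_congr rfl h2]
    simp
  · intro k _ k' _ hkk'
    rw [Function.onFun, Finset.disjoint_left]
    intro S hS hS'
    rw [Finset.mem_erase, Finset.mem_powerset] at hS hS'
    obtain ⟨e, he⟩ := Finset.nonempty_iff_ne_empty.2 hS.1
    exact hkk' ((Finset.mem_filter.1 (hS.2 he)).2.symm.trans (Finset.mem_filter.1 (hS'.2 he)).2)

theorem thm_SPD : St_SPD := by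
  intro ι _ _ N C hC T P hT hadeq hone htwo
  have hA := hC.adapted hT hadeq
  -- no loops in `P`
  have hcl : P.powerset.filter (fun S => defect C.mat T S = 1) =
      cliques C.mat (loops C.mat T ∩ P) := by
    ext S
    simp only [cliques, Finset.mem_filter, Finset.mem_powerset]
    rw [hA.defect_eq_one, Finset.subset_inter_iff]
    tauto
  have hloopdiag : ∀ e ∈ loops C.mat T ∩ P, C.mat e e = 1 := fun e he => by
    have he := (Finset.mem_inter.1 he).1
    simp only [loops, Finset.mem_filter, Finset.mem_univ, true_and] at he
    rcases hadeq e he.1 with h | ⟨t, ht, h⟩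
    · exact h
    · rw [he.2 t ht] at h
      simp at h
  have hloops : loops C.mat T ∩ P = ∅ := by
    by_contra hne
    have h1 := sum_cliques C.mat C.mat_symm (fun e => (C.l e : ℕ)) (loops C.mat T ∩ P)
      (fun e _ f _ h => by
        by_contra hef
        exact C.ne_ll hef h) hloopdiag
      (fun e he f hf m _ hef hfm hem _ => hC.chain (hloopdiag e he) (hloopdiag f hf)
        hef hfm hem)
    rw [if_neg hne, ← hcl, hone] at h1
    norm_num at h1
  have hnl : ∀ e ∈ P, e ∉ T → ∃ t ∈ T, C.mat t e = 1 := by
    intro e heP he
    by_contra h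
    push Not at h
    have : e ∈ loops C.mat T ∩ P := by
      simp only [loops, Finset.mem_inter, Finset.mem_filter, Finset.mem_univ, true_and]
      exact ⟨⟨he, fun t ht => zmod2_ne_one.1 (h t ht)⟩, heP⟩
    rw [hloops] at this
    simp at this
  -- the classes
  have h6 : -((P.image (key C.mat T)).card : ℤ) = (Pᶜ.card : ℤ) - T.card := by
    classical
    refine Eq.trans (sumFibres (key C.mat T) P).symm (Eq.trans ?_ htwo)
    refine Finset.sum_congr ?_ fun _ _ => rfl
    refine Finset.filter_congr fun S hS => ?_
    rw [Finset.mem_powerset] at hS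
    exact (defectTwo hA fun e he => hnl e (hS he)).symm
  have hsub : (T ∩ P).image (fun t => (({t} : Finset ι), (0 : ZMod 2))) ⊆
      P.image (key C.mat T) := by
    intro x hx
    obtain ⟨t, ht, rfl⟩ := Finset.mem_image.1 hx
    rw [Finset.mem_inter] at ht
    exact Finset.mem_image.2 ⟨t, ht.2, hA.key_of_mem ht.1⟩
  have hinj : ((T ∩ P).image (fun t => (({t} : Finset ι), (0 : ZMod 2)))).card =
      (T ∩ P).card := by
    rw [Finset.card_image_of_injective]
    intro a b hab
    simpa using hab
  have hle := Finset.card_le_card hsub
  rw [hinj] at hle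
  have hTP : (T ∩ P).card + (T \ P).card = T.card := Finset.card_inter_add_card_sdiff T P
  have hTPsub : T \ P ⊆ Pᶜ := fun t ht => by
    rw [Finset.mem_compl]
    exact (Finset.mem_sdiff.1 ht).2
  have hTPeq : T \ P = Pᶜ := Finset.eq_of_subset_of_card_le hTPsub (by omega)
  have himg : (T ∩ P).image (fun t => (({t} : Finset ι), (0 : ZMod 2))) =
      P.image (key C.mat T) := by
    refine Finset.eq_of_subset_of_card_le hsub ?_
    rw [hinj]
    have := congrArg Finset.card hTPeq
    omega
  have hPT : Pᶜ ⊆ T := hTPeq ▸ Finset.sdiff_subset
  refine ⟨hPT, ?_⟩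
  intro e he
  have heP : e ∈ P := by
    by_contra h
    exact he (hPT (Finset.mem_compl.2 h))
  have h1 : key C.mat T e ∈ (T ∩ P).image (fun t => (({t} : Finset ι), (0 : ZMod 2))) := by
    rw [himg]
    exact Finset.mem_image_of_mem _ heP
  obtain ⟨t, ht, hte⟩ := Finset.mem_image.1 h1
  have ht := (Finset.mem_inter.1 ht).1
  rw [hA.key_of_notMem he, Prod.mk.injEq] at hte
  refine ⟨hte.2.symm, t, ht, ?_, ?_⟩
  · have : t ∈ T.filter (fun t => C.mat t e = 1) := by rw [← hte.1]; simp
    exact (Finset.mem_filter.1 this).2
  · intro s hs hst
    by_contra h2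
    have : s ∈ T.filter (fun t => C.mat t e = 1) :=
      Finset.mem_filter.2 ⟨hs, zmod2_ne_zero.1 h2⟩
    rw [← hte.1, Finset.mem_singleton] at this
    exact hst this

end Pool.Agent.Helper16.Sparse
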