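import Pool.Agent.Helper16.Sparse.St
import Pool.Agent.Helper16.Jones.UnbSum

set_option autoImplicit false

/-!
# Sparse states, module SPK: two coefficients of the resummed bracket of a sparse state
-/

namespace Pool.Agent.Helper16.Sparse

open LaurentPolynomial Pool.Agent.Helper16.Knotoid
open Pool.Agent.Helper16.Knotoid.GaussDiagram
open Pool.Agent.Helper16.Jones (coeff_dd_abs coeff_dd_neg coeff_sign_mul)

variable {n : ℕ} (D : GaussDiagram n)

private theorem SPK_hh (s : Fin n → Bool) (Z : Finset (Fin n)) (j : ℤ) :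
    (D.hh s Z).coeff j = ∑ Y ∈ Z.powerset, (-1) ^ Y.card * (dd ^ D.exn s Y).coeff j := by
  unfold hh
  rw [coeff_sum_apply]
  exact Finset.sum_congr rfl fun Y _ => coeff_sign_mul _ _ _

private theorem SPK_hh_neg (s : Fin n → Bool) (Z : Finset (Fin n)) (j : ℤ) :
    (D.hh s Z).coeff (-j) = (D.hh s Z).coeff j := by
  rw [SPK_hh, SPK_hh]
  exact Finset.sum_congr rfl fun Y _ => by rw [coeff_dd_neg]

/-- the coefficients of the term `Z ⊆ P` -/
private theorem SPK_sub {s : Fin n → Bool} {P : Finset (Fin n)}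
    (hP : ∀ Z ⊆ P, Z.Nonempty → D.exn s Z + 1 ≤ 2 * Z.card) {Z : Finset (Fin n)} (hZ : Z ⊆ P)
    {i : ℤ} (hi : 2 ≤ i) (hi4 : i ≤ 4) :
    (D.hh s Z).coeff (4 * (Z.card : ℤ) - i) =
      (if Z = ∅ then 0 else (-1) ^ Z.card * (dd ^ D.exn s Z).coeff (4 * (Z.card : ℤ) - i)) +
        if 4 * (Z.card : ℤ) = i then 1 else 0 := by
  rw [SPK_hh]
  rcases Z.eq_empty_or_nonempty with rfl | hne
  · rw [Finset.powerset_empty, Finset.sum_singleton, exn_empty, coeff_dd_pow_zero, if_pos rfl,
      Finset.card_empty, if_neg (by push_cast; omega), if_neg (by push_cast; omega)]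
    simp
  · have hne' : Z ≠ ∅ := Finset.nonempty_iff_ne_empty.1 hne
    rw [Finset.sum_eq_add ∅ Z hne'.symm, if_neg hne', exn_empty, coeff_dd_pow_zero,
      Finset.card_empty, pow_zero, one_mul, add_comm]
    · congr 1
      by_cases h : 4 * (Z.card : ℤ) = i
      · rw [if_pos h, if_pos (by omega)]
      · rw [if_neg h, if_neg (by omega)]
    · rintro Y hY ⟨h1, h2⟩
      have h3 : Y ⊆ Z := Finset.mem_powerset.1 hY
      have h4 := hP Y (h3.trans hZ) (Finset.nonempty_iff_ne_empty.2 h1)
      have h5 : Y.card < Z.card := Finset.card_lt_card (Finset.ssubset_iff_subset_ne.2 ⟨h3, h2⟩)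
      rw [coeff_dd_abs, mul_zero]
      rw [abs_of_nonneg (by omega)]
      omega
    · intro h
      exact absurd (Finset.empty_mem_powerset Z) h
    · intro h
      exact absurd (Finset.mem_powerset_self Z) h

/-- The terms outside of `P` do not contribute. -/
private theorem SPK_out {s : Fin n → Bool} {X : Bool} {P : Finset (Fin n)}
    (hX : ∀ c, c ∈ P ↔ s c = X) (hU : D.Unbalanced s) (hM : MixedStrict D s)
    {Z : Finset (Fin n)} (hZ : ¬ Z ⊆ P) {i : ℤ} (hi : 2 ≤ i) (hi4 : i ≤ 4) :
    ((∏ c ∈ Z, Jones.wt s c) * D.hh s Z).coeff (if X then -i else i) = 0 := by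
  obtain ⟨c, hc, hcP⟩ := Finset.not_subset.1 hZ
  apply D.KK_term_coeff _ ⟨c, hc⟩
  intro hb
  rw [exn_eq, sg_eq]
  have hu := hU Z hb
  have hm := hM Z hb
  cases X with
  | true =>
    have h1 : 0 < num s false Z := by
      unfold num
      apply Finset.card_pos.2
      refine ⟨c, Finset.mem_filter.2 ⟨hc, ?_⟩⟩
      cases h : s c
      · rfl
      · exact absurd ((hX c).2 h) hcP
    rw [if_pos rfl]
    rcases Nat.eq_zero_or_pos (num s true Z) with h2 | h2
    · rw [h2] at hu ⊢
      have h3 : |((0 : ℕ) : ℤ) - (num s false Z : ℤ)| = num s false Z := by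
        rw [abs_of_nonpos (by push_cast; omega)]
        push_cast
        ring
      rw [h3] at hu
      rw [abs_of_nonpos (by push_cast; omega)]
      push_cast
      omega
    · have h3 := hm h2 h1
      rcases abs_cases ((num s true Z : ℤ) - num s false Z) with ⟨h4, h5⟩ | ⟨h4, h5⟩
      · rw [h4] at h3
        exact lt_of_lt_of_le (by omega) (le_abs_self _)
      · rw [h4] at h3
        exact lt_of_lt_of_le (by omega) (neg_le_abs _)
  | false =>
    have h1 : 0 < num s true Z := by
      unfold num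
      apply Finset.card_pos.2
      refine ⟨c, Finset.mem_filter.2 ⟨hc, ?_⟩⟩
      cases h : s c
      · exact absurd ((hX c).2 h) hcP
      · rfl
    rw [if_neg (by simp)]
    rcases Nat.eq_zero_or_pos (num s false Z) with h2 | h2
    · rw [h2] at hu ⊢
      have h3 : |(num s true Z : ℤ) - ((0 : ℕ) : ℤ)| = num s true Z := by
        rw [abs_of_nonneg (by push_cast; omega)]
        push_cast
        ring
      rw [h3] at hu
      rw [abs_of_nonneg (by push_cast; omega)]
      push_cast
      omega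
    · have h3 := hm h1 h2
      rcases abs_cases ((num s true Z : ℤ) - num s false Z) with ⟨h4, h5⟩ | ⟨h4, h5⟩
      · rw [h4] at h3
        exact lt_of_lt_of_le (by omega) (le_abs_self _)
      · rw [h4] at h3
        exact lt_of_lt_of_le (by omega) (neg_le_abs _)

/-- The terms inside of `P`. -/
private theorem SPK_in {s : Fin n → Bool} {X : Bool} {P : Finset (Fin n)}
    (hX : ∀ c, c ∈ P ↔ s c = X) {Z : Finset (Fin n)} (hZ : Z ⊆ P) (i : ℤ) :
    ((∏ c ∈ Z, Jones.wt s c) * D.hh s Z).coeff (if X then -i else i) =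
      (D.hh s Z).coeff (4 * (Z.card : ℤ) - i) := by
  rw [Jones.prod_wt, coeff_T_mul, sg_eq]
  have h1 : num s X Z = Z.card := by
    unfold num
    rw [Finset.filter_true_of_mem fun c hc => (hX c).1 (hZ hc)]
  have h2 : num s (!X) Z = 0 := by
    unfold num
    rw [Finset.card_eq_zero, Finset.filter_eq_empty_iff]
    intro c hc h
    have h3 := (hX c).1 (hZ hc)
    rw [h3] at h
    cases X <;> simp at h
  cases X with
  | true =>
    have h2' : num s false Z = 0 := h2
    rw [h1, h2', if_pos rfl]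
    congr 1
    push_cast
    ring
  | false =>
    have h2' : num s true Z = 0 := h2
    rw [h1, h2', if_neg (by simp), ← SPK_hh_neg]
    congr 1
    push_cast
    ring

private theorem SPK_KK {s : Fin n → Bool} {X : Bool} {P : Finset (Fin n)}
    (hX : ∀ c, c ∈ P ↔ s c = X) (hU : D.Unbalanced s) (hM : MixedStrict D s)
    (hP : ∀ Z ⊆ P, Z.Nonempty → D.exn s Z + 1 ≤ 2 * Z.card) {i : ℤ} (hi : 2 ≤ i) (hi4 : i ≤ 4) :
    (D.KK s).coeff (if X then -i else i) = ∑ Z ∈ P.powerset,
      ((if Z = ∅ then 0 else (-1) ^ Z.card * (dd ^ D.exn s Z).coeff (4 * (Z.card : ℤ) - i)) +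
        if 4 * (Z.card : ℤ) = i then 1 else 0) := by
  unfold KK
  rw [coeff_sum_apply]
  symm
  rw [← Finset.sum_subset (Finset.powerset_mono.2 (Finset.subset_univ P))]
  · refine Finset.sum_congr rfl fun Z hZ => ?_
    rw [SPK_in D hX (Finset.mem_powerset.1 hZ), SPK_sub D hP (Finset.mem_powerset.1 hZ) hi hi4]
  · intro Z _ hZ
    exact SPK_out D hX hU hM (fun h => hZ (Finset.mem_powerset.2 h)) hi hi4

theorem thm_SPK : St_SPK := by
  intro n D s X P hX hU hM hP
  constructor
  · have h1 := SPK_KK D hX hU hM hP (i := 2) le_rfl (by norm_num)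
    rw [h1, ← Finset.sum_neg_distrib, Finset.sum_filter]
    refine Finset.sum_congr rfl fun Z hZ => ?_
    rw [if_neg (show ¬ 4 * (Z.card : ℤ) = 2 by omega), add_zero]
    rcases Z.eq_empty_or_nonempty with rfl | hne
    · rw [if_pos rfl, if_neg (by simp)]
    · have hne' : Z ≠ ∅ := Finset.nonempty_iff_ne_empty.1 hne
      have h2 := hP Z (Finset.mem_powerset.1 hZ) hne
      rw [if_neg hne']
      by_cases h3 : D.exn s Z + 1 = 2 * Z.card
      · rw [if_pos h3, show 4 * (Z.card : ℤ) - 2 = 2 * (D.exn s Z : ℤ) by omega, coeff_dd_pow_top]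
        have h4 : Odd (D.exn s Z) := by
          rw [Nat.odd_iff]
          omega
        rw [h4.neg_one_pow]
        ring
      · rw [if_neg h3, coeff_dd_pow_of_lt _ _ (by omega), mul_zero]
  · have h1 := SPK_KK D hX hU hM hP (i := 4) (by norm_num) le_rfl
    have h0 : ∑ Z ∈ P.powerset, (if 4 * (Z.card : ℤ) = 4 then (1 : ℤ) else 0) = P.card := by
      rw [← Finset.sum_filter, Finset.sum_const, nsmul_eq_mul, mul_one]
      have h2 : P.powerset.filter (fun Z => 4 * (Z.card : ℤ) = 4) = P.powersetCard 1 := by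
        ext Z
        rw [Finset.mem_filter, Finset.mem_powerset, Finset.mem_powersetCard]
        constructor
        · rintro ⟨h3, h4⟩
          exact ⟨h3, by omega⟩
        · rintro ⟨h3, h4⟩
          exact ⟨h3, by omega⟩
      rw [h2, Finset.card_powersetCard, Nat.choose_one_right]
    rw [h1, Finset.sum_add_distrib, h0, add_comm, Finset.sum_filter]
    congr 1
    refine Finset.sum_congr rfl fun Z hZ => ?_
    rcases Z.eq_empty_or_nonempty with rfl | hne
    · rw [if_pos rfl, if_neg (by simp)]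
    · have hne' : Z ≠ ∅ := Finset.nonempty_iff_ne_empty.1 hne
      have h2 := hP Z (Finset.mem_powerset.1 hZ) hne
      rw [if_neg hne']
      by_cases h3 : D.exn s Z + 2 = 2 * Z.card
      · rw [if_pos h3, show 4 * (Z.card : ℤ) - 4 = 2 * (D.exn s Z : ℤ) by omega, coeff_dd_pow_top]
        have h4 : Even (D.exn s Z) := by
          rw [Nat.even_iff]
          omega
        rw [h4.neg_one_pow]
        ring
      · rw [if_neg h3]
        by_cases h4 : D.exn s Z + 1 = 2 * Z.card
        · rw [show 4 * (Z.card : ℤ) - 4 = 2 * (D.exn s Z : ℤ) - 2 by omega, coeff_dd_pow_two,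
            mul_zero]
        · rw [coeff_dd_pow_of_lt _ _ (by omega), mul_zero]

end Pool.Agent.Helper16.Sparse
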