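import Pool.Agent.Helper16.Sparse.St

set_option autoImplicit false

/-!
# A normalized bracket which is a monomial is `1`
-/

namespace Pool.Agent.Helper16.Sparse

open LaurentPolynomial Pool.Agent.Helper16.Knotoid Pool.Agent.Helper16.Knotoid.GaussDiagram Module

variable {n : ℕ}

private theorem z2 (a : ZMod 2) : a = 0 ∨ a = 1 := by
  revert a
  decide

/-! ### linear algebra over `ZMod 2` -/

private theorem Lv_add (M : Fin n → Fin n → ZMod 2) (x y : Fin n → ZMod 2) (c : Fin n) :
    Lv M (x + y) c = Lv M x c + Lv M y c := by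
  unfold Lv
  rw [← Finset.sum_add_distrib]
  refine Finset.sum_congr rfl fun f _ => ?_
  rw [Pi.add_apply, mul_add]

private theorem Lv_smul (M : Fin n → Fin n → ZMod 2) (a : ZMod 2) (x : Fin n → ZMod 2)
    (c : Fin n) : Lv M (a • x) c = a * Lv M x c := by
  unfold Lv
  rw [Finset.mul_sum]
  refine Finset.sum_congr rfl fun f _ => ?_
  rw [Pi.smul_apply, smul_eq_mul]
  ring

/-- the functional `x ↦ (M x)_c` -/
private def LvL (M : Fin n → Fin n → ZMod 2) (c : Fin n) : (Fin n → ZMod 2) →ₗ[ZMod 2] ZMod 2 where
  toFun x := Lv M x c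
  map_add' x y := Lv_add M x y c
  map_smul' a x := Lv_smul M a x c

/-- the vectors with support in `A` and `(M x)_i = 0` for `i ∈ B` -/
private def Ks (M : Fin n → Fin n → ZMod 2) (A B : Finset (Fin n)) :
    Submodule (ZMod 2) (Fin n → ZMod 2) where
  carrier := {x | (∀ i ∉ A, x i = 0) ∧ ∀ i ∈ B, Lv M x i = 0}
  add_mem' := by
    rintro x y ⟨h1, h2⟩ ⟨h3, h4⟩
    refine ⟨fun i hi => ?_, fun i hi => ?_⟩
    · rw [Pi.add_apply, h1 i hi, h3 i hi, add_zero]
    · rw [Lv_add, h2 i hi, h4 i hi, add_zero]
  zero_mem' := by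
    refine ⟨fun i _ => rfl, fun i _ => ?_⟩
    unfold Lv
    simp
  smul_mem' := by
    rintro a x ⟨h1, h2⟩
    refine ⟨fun i hi => ?_, fun i hi => ?_⟩
    · rw [Pi.smul_apply, h1 i hi, smul_zero]
    · rw [Lv_smul, h2 i hi, mul_zero]

private theorem mem_Ks {M : Fin n → Fin n → ZMod 2} {A B : Finset (Fin n)} {x : Fin n → ZMod 2} :
    x ∈ Ks M A B ↔ (∀ i ∉ A, x i = 0) ∧ ∀ i ∈ B, Lv M x i = 0 := Iff.rfl

/-- hyperplanes -/
private theorem finrank_hyp (W : Submodule (ZMod 2) (Fin n → ZMod 2))
    (φ : (Fin n → ZMod 2) →ₗ[ZMod 2] ZMod 2) {y : Fin n → ZMod 2} (hy : y ∈ W) (h1 : φ y = 1) :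
    finrank (ZMod 2) W = finrank (ZMod 2) (W ⊓ LinearMap.ker φ : Submodule _ _) + 1 := by
  have h2 := LinearMap.finrank_range_add_finrank_ker (φ.domRestrict W)
  have h3 : LinearMap.range (φ.domRestrict W) = ⊤ := by
    rw [eq_top_iff]
    rintro a -
    refine ⟨a • ⟨y, hy⟩, ?_⟩
    rw [map_smul]
    change a • φ y = a
    rw [h1, smul_eq_mul, mul_one]
  have h4 : finrank (ZMod 2) (LinearMap.ker (φ.domRestrict W)) =
      finrank (ZMod 2) (W ⊓ LinearMap.ker φ : Submodule _ _) := by
    rw [← Submodule.map_comap_subtype, LinearEquiv.finrank_eq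
      (Submodule.equivMapOfInjective W.subtype W.injective_subtype _).symm]
    rfl
  rw [h3, finrank_top, finrank_self, h4] at h2
  omega

/-- the sum of `x_i (M y)_i` is symmetric -/
private theorem pair_symm {M : Fin n → Fin n → ZMod 2} (hM : ∀ a b, M a b = M b a)
    (x y : Fin n → ZMod 2) : ∑ i, x i * Lv M y i = ∑ i, y i * Lv M x i := by
  unfold Lv
  simp only [Finset.mul_sum]
  rw [Finset.sum_comm]
  refine Finset.sum_congr rfl fun i _ => Finset.sum_congr rfl fun j _ => ?_
  rw [hM i j]
  ring

/-- `M` with `1_U` added on the diagonal -/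
private def ad (M : Fin n → Fin n → ZMod 2) (U : Finset (Fin n)) (i j : Fin n) : ZMod 2 :=
  M i j + if i = j ∧ i ∈ U then 1 else 0

private theorem Lv_ad (M : Fin n → Fin n → ZMod 2) (U : Finset (Fin n)) (x : Fin n → ZMod 2)
    (c : Fin n) : Lv (ad M U) x c = Lv M x c + if c ∈ U then x c else 0 := by
  unfold Lv ad
  simp only [add_mul, Finset.sum_add_distrib]
  congr 1
  by_cases hc : c ∈ U
  · rw [if_pos hc, Finset.sum_eq_single c]
    · rw [if_pos ⟨rfl, hc⟩, one_mul]
    · intro b _ hb
      rw [if_neg fun h => hb h.1.symm, zero_mul]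
    · intro h
      exact absurd (Finset.mem_univ _) h
  · rw [if_neg hc]
    refine Finset.sum_eq_zero fun j _ => ?_
    rw [if_neg fun h => hc h.2, zero_mul]

private theorem ad_symm {M : Fin n → Fin n → ZMod 2} (hM : ∀ a b, M a b = M b a)
    (U : Finset (Fin n)) (a b : Fin n) : ad M U a b = ad M U b a := by
  unfold ad
  rw [hM a b]
  congr 1
  by_cases h : a = b
  · subst h
    rfl
  · rw [if_neg fun h' => h h'.1, if_neg fun h' => h h'.1.symm]

private theorem ad_insert (M : Fin n → Fin n → ZMod 2) {U : Finset (Fin n)} {v : Fin n}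
    (hv : v ∉ U) : ad M (insert v U) = ad (ad M U) {v} := by
  funext i j
  unfold ad
  rw [add_assoc]
  congr 1
  by_cases h : i = j
  · subst h
    by_cases h2 : i = v
    · subst h2
      simp [hv]
    · simp [h2]
  · simp [h]

private theorem ad_empty (M : Fin n → Fin n → ZMod 2) : ad M ∅ = M := by
  funext i j
  unfold ad
  simp

/-- the main lemma: the three nullities are `k`, `k`, `k + 1` -/
private theorem three {M : Fin n → Fin n → ZMod 2} (hM : ∀ a b, M a b = M b a)
    {S : Finset (Fin n)} {v : Fin n} (hv : v ∉ S) :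
    (-2 : ℤ) ^ finrank (ZMod 2) (Ks M (insert v S) (insert v S)) +
      (-2) ^ finrank (ZMod 2) (Ks (ad M {v}) (insert v S) (insert v S)) =
      -(-2) ^ finrank (ZMod 2) (Ks M S S) := by
  set L := Ks M (insert v S) S with hL
  set pv : (Fin n → ZMod 2) →ₗ[ZMod 2] ZMod 2 := LinearMap.proj v with hpv
  have ha : Ks M S S = L ⊓ LinearMap.ker pv := by
    ext x
    rw [Submodule.mem_inf, hL, mem_Ks, mem_Ks, LinearMap.mem_ker]
    constructor
    · rintro ⟨h1, h2⟩
      exact ⟨⟨fun i hi => h1 i fun h => hi (Finset.mem_insert_of_mem h), h2⟩, h1 v hv⟩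
    · rintro ⟨⟨h1, h2⟩, h3⟩
      refine ⟨fun i hi => ?_, h2⟩
      by_cases hiv : i = v
      · rw [hiv]
        exact h3
      · exact h1 i fun h => (Finset.mem_insert.1 h).elim hiv hi
  have hb : Ks M (insert v S) (insert v S) = L ⊓ LinearMap.ker (LvL M v) := by
    ext x
    rw [Submodule.mem_inf, hL, mem_Ks, mem_Ks, LinearMap.mem_ker]
    constructor
    · rintro ⟨h1, h2⟩
      exact ⟨⟨h1, fun i hi => h2 i (Finset.mem_insert_of_mem hi)⟩,
        h2 v (Finset.mem_insert_self _ _)⟩
    · rintro ⟨⟨h1, h2⟩, h3⟩
      refine ⟨h1, fun i hi => ?_⟩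
      rcases Finset.mem_insert.1 hi with h | h
      · rw [h]
        exact h3
      · exact h2 i h
  have hc : Ks (ad M {v}) (insert v S) (insert v S) =
      L ⊓ LinearMap.ker (LvL M v + pv) := by
    ext x
    rw [Submodule.mem_inf, hL, mem_Ks, mem_Ks, LinearMap.mem_ker]
    have e1 : ∀ i ∈ S, Lv (ad M {v}) x i = Lv M x i := by
      intro i hi
      rw [Lv_ad, if_neg, add_zero]
      intro h
      rw [Finset.mem_singleton] at h
      exact hv (h ▸ hi)
    have e2 : Lv (ad M {v}) x v = (LvL M v + pv) x := by
      rw [Lv_ad, if_pos (Finset.mem_singleton_self _)]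
      rfl
    constructor
    · rintro ⟨h1, h2⟩
      refine ⟨⟨h1, fun i hi => ?_⟩, ?_⟩
      · rw [← e1 i hi]
        exact h2 i (Finset.mem_insert_of_mem hi)
      · rw [← e2]
        exact h2 v (Finset.mem_insert_self _ _)
    · rintro ⟨⟨h1, h2⟩, h3⟩
      refine ⟨h1, fun i hi => ?_⟩
      rcases Finset.mem_insert.1 hi with h | h
      · rw [h, e2]
        exact h3
      · rw [e1 i h]
        exact h2 i h
  have hd : ∀ x ∈ L, ∀ y ∈ L, x v * LvL M v y = y v * LvL M v x := by
    intro x hx y hy
    have key : ∀ a ∈ L, ∀ b ∈ L, ∑ i, a i * Lv M b i = a v * LvL M v b := by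
      intro a ha' b hb'
      rw [Finset.sum_eq_single v]
      · rfl
      · intro i _ hi
        by_cases h : i ∈ S
        · rw [hb'.2 i h, mul_zero]
        · rw [ha'.1 i fun h' => (Finset.mem_insert.1 h').elim hi h, zero_mul]
      · intro h
        exact absurd (Finset.mem_univ _) h
    rw [← key x hx y hy, ← key y hy x hx]
    exact pair_symm hM x y
  by_cases hA : ∃ x ∈ L, x v = 1
  · obtain ⟨x0, hx0, hx1⟩ := hA
    have h5 := finrank_hyp L pv hx0 hx1
    rw [← ha] at h5
    have h6 : ∀ y ∈ L, LvL M v y = y v * LvL M v x0 := by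
      intro y hy
      rw [← hd x0 hx0 y hy, hx1, one_mul]
    rcases z2 (LvL M v x0) with h7 | h7
    · have e1 : Ks M (insert v S) (insert v S) = L := by
        rw [hb]
        refine inf_eq_left.2 fun y hy => ?_
        rw [LinearMap.mem_ker, h6 y hy, h7, mul_zero]
      have e2 : Ks (ad M {v}) (insert v S) (insert v S) = Ks M S S := by
        rw [hc, ha]
        ext y
        rw [Submodule.mem_inf, Submodule.mem_inf, LinearMap.mem_ker, LinearMap.mem_ker]
        refine and_congr_right fun hy => ?_
        rw [LinearMap.add_apply, h6 y hy, h7, mul_zero, zero_add]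
      rw [e1, e2, h5, pow_succ]
      ring
    · have e1 : Ks (ad M {v}) (insert v S) (insert v S) = L := by
        rw [hc]
        refine inf_eq_left.2 fun y hy => ?_
        rw [LinearMap.mem_ker, LinearMap.add_apply, h6 y hy, h7, mul_one]
        exact CharTwo.add_self_eq_zero _
      have e2 : Ks M (insert v S) (insert v S) = Ks M S S := by
        rw [hb, ha]
        ext y
        rw [Submodule.mem_inf, Submodule.mem_inf, LinearMap.mem_ker, LinearMap.mem_ker]
        refine and_congr_right fun hy => ?_
        rw [h6 y hy, h7, mul_one]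
        rfl
      rw [e1, e2, h5, pow_succ]
      ring
  · have h5 : ∀ x ∈ L, x v = 0 := by
      intro x hx
      rcases z2 (x v) with h | h
      · exact h
      · exact absurd ⟨x, hx, h⟩ hA
    have e0 : L = Ks M S S := by
      rw [ha]
      exact (inf_eq_left.2 fun y hy => LinearMap.mem_ker.2 (h5 y hy)).symm
    have e1 : Ks (ad M {v}) (insert v S) (insert v S) = Ks M (insert v S) (insert v S) := by
      rw [hb, hc]
      ext y
      rw [Submodule.mem_inf, Submodule.mem_inf, LinearMap.mem_ker, LinearMap.mem_ker]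
      refine and_congr_right fun hy => ?_
      rw [LinearMap.add_apply]
      have : pv y = 0 := h5 y hy
      rw [this, add_zero]
    -- `b` is not in the image
    let N : (Fin n → ZMod 2) →ₗ[ZMod 2] (Fin n → ZMod 2) :=
      { toFun := fun x i => if i ∈ S then Lv M (fun j => if j ∈ S then x j else 0) i else 0
        map_add' := by
          intro x y
          funext i
          have : (fun j => if j ∈ S then (x + y) j else 0) =
              (fun j => if j ∈ S then x j else 0) + fun j => if j ∈ S then y j else 0 := by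
            funext j
            by_cases hj : j ∈ S <;> simp [hj]
          rw [Pi.add_apply, this]
          by_cases hi : i ∈ S
          · rw [if_pos hi, if_pos hi, if_pos hi, Lv_add]
          · rw [if_neg hi, if_neg hi, if_neg hi, add_zero]
        map_smul' := by
          intro a x
          funext i
          have : (fun j => if j ∈ S then (a • x) j else 0) =
              a • fun j => if j ∈ S then x j else 0 := by
            funext j
            by_cases hj : j ∈ S <;> simp [hj]
          rw [RingHom.id_apply, Pi.smul_apply, this]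
          by_cases hi : i ∈ S
          · rw [if_pos hi, if_pos hi, Lv_smul, smul_eq_mul]
          · rw [if_neg hi, if_neg hi, smul_zero] }
    have hNi : ∀ x i, N x i = if i ∈ S then Lv M (fun j => if j ∈ S then x j else 0) i else 0 :=
      fun x i => rfl
    set b : Fin n → ZMod 2 := fun i => if i ∈ S then M i v else 0 with hbdef
    have hbN : b ∉ LinearMap.range N := by
      rintro ⟨z, hz⟩
      refine hA ⟨fun j => if j = v then 1 else if j ∈ S then z j else 0, ⟨?_, ?_⟩, if_pos rfl⟩
      · intro i hi
        have h1 : ¬ i = v := fun h => hi (by rw [h]; exact Finset.mem_insert_self _ _)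
        have h2 : i ∉ S := fun h => hi (Finset.mem_insert_of_mem h)
        simp only [if_neg h1, if_neg h2]
      · intro i hi
        have e3 : (fun j => if j = v then (1 : ZMod 2) else if j ∈ S then z j else 0) =
            (fun j => if j ∈ S then z j else 0) + Pi.single v 1 := by
          funext j
          rw [Pi.add_apply]
          by_cases hj : j = v
          · rw [if_pos hj, hj, if_neg hv, Pi.single_eq_same, zero_add]
          · rw [if_neg hj, Pi.single_eq_of_ne hj, add_zero]
        have e4 := congrFun hz i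
        rw [hNi, if_pos hi, hbdef] at e4
        simp only [if_pos hi] at e4
        rw [e3, Lv_add, e4]
        have e5 : Lv M (Pi.single v 1) i = M i v := by
          unfold Lv
          rw [Finset.sum_eq_single v]
          · rw [Pi.single_eq_same, mul_one]
          · intro j _ hj
            rw [Pi.single_eq_of_ne hj, mul_zero]
          · intro h
            exact absurd (Finset.mem_univ _) h
        rw [e5]
        exact CharTwo.add_self_eq_zero _
    obtain ⟨g, hg1, hg2⟩ := Submodule.exists_dual_map_eq_bot_of_notMem hbN inferInstance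
    have hg : ∀ u : Fin n → ZMod 2, g u = ∑ i, u i * g (Pi.single i 1) := by
      intro u
      conv_lhs => rw [← Finset.univ_sum_single u]
      rw [map_sum]
      refine Finset.sum_congr rfl fun i _ => ?_
      have : (Pi.single i (u i) : Fin n → ZMod 2) = u i • Pi.single i 1 := by
        rw [← Pi.single_smul, smul_eq_mul, mul_one]
      rw [this, map_smul, smul_eq_mul]
    have hg3 : ∀ x, g (N x) = 0 := by
      intro x
      have : g (N x) ∈ (LinearMap.range N).map g :=
        Submodule.mem_map_of_mem (LinearMap.mem_range_self N x)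
      rw [hg2] at this
      exact this
    set y : Fin n → ZMod 2 := fun i => if i ∈ S then g (Pi.single i 1) else 0 with hy
    have hyS : y ∈ Ks M S S := by
      refine ⟨fun i hi => if_neg hi, fun j hj => ?_⟩
      have h8 := hg3 (Pi.single j 1)
      rw [hg] at h8
      rw [← h8]
      unfold Lv
      refine Finset.sum_congr rfl fun i _ => ?_
      rw [hNi]
      by_cases hi : i ∈ S
      · rw [hy]
        simp only [if_pos hi]
        congr 1
        unfold Lv
        rw [Finset.sum_eq_single j]
        · simp only [if_pos hj]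
          rw [Pi.single_eq_same, mul_one, hM j i]
        · intro k _ hk
          simp only [Pi.single_eq_of_ne hk, ite_self, mul_zero]
        · intro h
          exact absurd (Finset.mem_univ _) h
      · rw [hy]
        simp only [if_neg hi]
        rw [mul_zero, zero_mul]
    have hy1 : LvL M v y = 1 := by
      rcases z2 (g b) with h | h
      · exact absurd h hg1
      · rw [← h, hg]
        change Lv M y v = _
        unfold Lv
        refine Finset.sum_congr rfl fun i _ => ?_
        by_cases hi : i ∈ S
        · rw [hy, hbdef]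
          simp only [if_pos hi]
          rw [hM v i]
        · rw [hy, hbdef]
          simp only [if_neg hi]
          rw [mul_zero, zero_mul]
    have h9 := finrank_hyp L (LvL M v) (e0 ▸ hyS) hy1
    rw [← hb] at h9
    rw [e1, ← e0, h9, pow_succ]
    ring

/-- the sum over the diagonals -/
private theorem sum_diag {M : Fin n → Fin n → ZMod 2} (hM : ∀ a b, M a b = M b a)
    (R : Finset (Fin n)) (F : Finset (Fin n)) : Disjoint F R →
    ∑ U ∈ F.powerset, (-2 : ℤ) ^ finrank (ZMod 2) (Ks (ad M U) (F ∪ R) (F ∪ R)) =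
      (-1) ^ F.card * (-2) ^ finrank (ZMod 2) (Ks M R R) := by
  induction F using Finset.induction_on with
  | empty =>
    intro _
    rw [Finset.powerset_empty, Finset.sum_singleton, ad_empty, Finset.empty_union,
      Finset.card_empty, pow_zero, one_mul]
  | insert v F hv ih =>
    intro hd
    rw [Finset.disjoint_insert_left] at hd
    rw [Finset.sum_powerset_insert hv, ← Finset.sum_add_distrib, Finset.card_insert_of_notMem hv,
      pow_succ, mul_assoc, mul_comm (-1 : ℤ), ← mul_assoc, ← ih hd.2, Finset.sum_mul]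
    refine Finset.sum_congr rfl fun U hU => ?_
    have hvU : v ∉ U := fun h => hv (Finset.mem_powerset.1 hU h)
    have hvS : v ∉ F ∪ R := fun h => (Finset.mem_union.1 h).elim hv hd.1
    rw [Finset.insert_union, ad_insert M hvU, three (ad_symm hM U) hvS]
    ring

/-- no unoriented smoothing at the free crossings: all `U` -/
private theorem sum_all {M : Fin n → Fin n → ZMod 2} (hM : ∀ a b, M a b = M b a) :
    ∑ U : Finset (Fin n), (-2 : ℤ) ^ finrank (ZMod 2) (Ks (ad M U) Finset.univ Finset.univ) =
      (-1) ^ n := by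
  have h := sum_diag hM ∅ Finset.univ (Finset.disjoint_empty_right _)
  rw [Finset.powerset_univ, Finset.union_empty] at h
  have h1 : Ks M ∅ ∅ = ⊥ := by
    rw [eq_bot_iff]
    intro x hx
    rw [Submodule.mem_bot]
    funext i
    exact hx.1 i (Finset.notMem_empty _)
  rw [h, h1, finrank_bot, pow_zero, mul_one, Finset.card_univ, Fintype.card_fin]

/-- the sums with the smoothing fixed at one crossing -/
private theorem sum_one {M : Fin n → Fin n → ZMod 2} (hM : ∀ a b, M a b = M b a)
    {c : Fin n} (h0 : M c c = 0) :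
    ∑ U : Finset (Fin n), (if c ∈ U then (4 : ℤ) else 2) *
      (-2 : ℤ) ^ finrank (ZMod 2) (Ks (ad M U) Finset.univ Finset.univ) = 0 := by
  have e1 : (Finset.univ : Finset (Fin n)) = insert c (Finset.univ.erase c) :=
    (Finset.insert_erase (Finset.mem_univ c)).symm
  have hc : c ∉ Finset.univ.erase c := Finset.notMem_erase _ _
  have hu : Finset.univ.erase c ∪ {c} = Finset.univ := by
    rw [Finset.union_comm, ← Finset.insert_eq]
    exact Finset.insert_erase (Finset.mem_univ c)
  have hd : Disjoint (Finset.univ.erase c) {c} :=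
    Finset.disjoint_singleton_right.2 hc
  have hz : ∀ N : Fin n → Fin n → ZMod 2, N c c = 1 → Ks N {c} {c} = ⊥ := by
    intro N hN
    rw [eq_bot_iff]
    intro x hx
    rw [Submodule.mem_bot]
    funext i
    by_cases hi : i = c
    · have h2 := hx.2 c (Finset.mem_singleton_self c)
      unfold Lv at h2
      rw [Finset.sum_eq_single c, hN, one_mul] at h2
      · rw [hi]
        exact h2
      · intro j _ hj
        rw [hx.1 j (by rwa [Finset.mem_singleton]), mul_zero]
      · intro h
        exact absurd (Finset.mem_univ _) h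
    · exact hx.1 i (by rwa [Finset.mem_singleton])
  have h1 := sum_diag hM {c} _ hd
  have h2 := sum_diag (ad_symm hM {c}) {c} _ hd
  have h3 := three hM (Finset.notMem_empty c)
  have hb : Ks M ∅ ∅ = ⊥ := by
    rw [eq_bot_iff]
    intro x hx
    rw [Submodule.mem_bot]
    funext i
    exact hx.1 i (Finset.notMem_empty _)
  have had : ad M {c} c c = 1 := by
    unfold ad
    rw [h0, if_pos ⟨rfl, Finset.mem_singleton_self c⟩, zero_add]
  rw [hu] at h1 h2
  rw [insert_empty_eq, hz _ had, hb, finrank_bot, pow_zero] at h3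
  rw [hz _ had, finrank_bot, pow_zero, mul_one] at h2
  have h4 : (-2 : ℤ) ^ finrank (ZMod 2) (Ks M {c} {c}) = -2 := by linarith
  rw [h4] at h1
  rw [← Finset.powerset_univ]
  conv_lhs => rw [e1]
  rw [Finset.sum_powerset_insert hc]
  have e2 : ∑ U ∈ (Finset.univ.erase c).powerset, (if c ∈ U then (4 : ℤ) else 2) *
      (-2 : ℤ) ^ finrank (ZMod 2) (Ks (ad M U) (insert c (Finset.univ.erase c))
        (insert c (Finset.univ.erase c))) =
      2 * ∑ U ∈ (Finset.univ.erase c).powerset,
        (-2 : ℤ) ^ finrank (ZMod 2) (Ks (ad M U) Finset.univ Finset.univ) := by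
    rw [Finset.mul_sum, ← e1]
    refine Finset.sum_congr rfl fun U hU => ?_
    rw [if_neg fun h => hc (Finset.mem_powerset.1 hU h)]
  have e3 : ∑ U ∈ (Finset.univ.erase c).powerset, (if c ∈ insert c U then (4 : ℤ) else 2) *
      (-2 : ℤ) ^ finrank (ZMod 2) (Ks (ad M (insert c U)) (insert c (Finset.univ.erase c))
        (insert c (Finset.univ.erase c))) =
      4 * ∑ U ∈ (Finset.univ.erase c).powerset,
        (-2 : ℤ) ^ finrank (ZMod 2) (Ks (ad (ad M {c}) U) Finset.univ Finset.univ) := by
    rw [Finset.mul_sum, ← e1]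
    refine Finset.sum_congr rfl fun U hU => ?_
    have hcU : c ∉ U := fun h => hc (Finset.mem_powerset.1 hU h)
    have e4 : ad M (insert c U) = ad (ad M {c}) U := by
      rw [ad_insert M hcU]
      funext i j
      unfold ad
      ring
    rw [if_pos (Finset.mem_insert_self c U), e4]
  rw [e2, e3, h1, h2]
  ring

/-! ### the evaluation at `A = 1 + ε` -/

section Eval

variable (D : GaussDiagram n)

private theorem mem_Us {s : Fin n → Bool} {c : Fin n} : c ∈ D.Us s ↔ s c ≠ D.sign c := by
  unfold Us
  rw [Finset.mem_filter]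
  exact ⟨fun h => h.2, fun h => ⟨Finset.mem_univ _, h⟩⟩

private theorem comps_Ks (s : Fin n → Bool) :
    D.comps s - 1 = finrank (ZMod 2) (Ks (ad D.lam (D.Us s)) Finset.univ Finset.univ) := by
  rw [comps_eq]
  have : LinearMap.ker (D.gmat s).mulVecLin = Ks (ad D.lam (D.Us s)) Finset.univ Finset.univ := by
    ext x
    rw [mem_ker_gmat, mem_Ks]
    constructor
    · intro h
      refine ⟨fun i hi => absurd (Finset.mem_univ _) hi, fun i _ => ?_⟩
      rw [Lv_ad]
      have h2 := h i
      by_cases hs : s i = D.sign i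
      · rw [if_pos hs] at h2
        rw [if_neg fun h' => (mem_Us D).1 h' hs]
        exact h2
      · rw [if_neg hs] at h2
        rw [if_pos ((mem_Us D).2 hs)]
        exact h2
    · rintro ⟨-, h⟩ i
      have h2 := h i (Finset.mem_univ _)
      rw [Lv_ad] at h2
      by_cases hs : s i = D.sign i
      · rw [if_neg fun h' => (mem_Us D).1 h' hs] at h2
        rw [if_pos hs]
        exact h2
      · rw [if_pos ((mem_Us D).2 hs)] at h2
        rw [if_neg hs]
        exact h2
  rw [this]
  omega

/-- the sum over the states is the sum over the sets of unoriented smoothings -/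
private theorem sum_states (G : Finset (Fin n) → ℤ) :
    ∑ s : Fin n → Bool, G (D.Us s) = ∑ U : Finset (Fin n), G U := by
  classical
  refine Finset.sum_bij' (fun s _ => D.Us s)
    (fun U _ c => if c ∈ U then !D.sign c else D.sign c) ?_ ?_ ?_ ?_ ?_
  · intro s _
    exact Finset.mem_univ _
  · intro U _
    exact Finset.mem_univ _
  · intro s _
    funext c
    by_cases hs : s c = D.sign c
    · rw [if_neg fun h' => (mem_Us D).1 h' hs, hs]
    · rw [if_pos ((mem_Us D).2 hs)]
      revert hs
      generalize s c = a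
      generalize D.sign c = b
      revert a b
      decide
  · intro U _
    ext c
    unfold Us
    rw [Finset.mem_filter]
    by_cases hc : c ∈ U <;> simp [hc]
  · intro s _
    rfl

variable {R : Type*} [CommRing R] (φ : LaurentPolynomial ℤ →+* R)

private theorem phi_T {ε : R} (hε : ε * ε = 0) (hφ : φ (T 1) = 1 + ε) (k : ℤ) :
    φ (T k) = 1 + k * ε := by
  induction k using Int.induction_on with
  | zero => simp
  | succ i ih =>
    rw [T_add, map_mul, ih, hφ]
    push_cast
    linear_combination (i : R) * hε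
  | pred i ih =>
    have h1 : φ (T (-(i : ℤ) - 1)) * φ (T 1) = φ (T (-(i : ℤ))) := by
      rw [← map_mul, ← T_add]
      congr 2
      ring
    rw [ih, hφ] at h1
    push_cast at h1 ⊢
    linear_combination (1 - ε) * h1 + (φ (T (-(i : ℤ) - 1)) + (i : R)) * hε

private theorem phi_prod {ε : R} (hε : ε * ε = 0) (a : Fin n → ℤ) (S : Finset (Fin n)) :
    ∏ c ∈ S, (-(1 - (a c : R) * ε)) = (-1) ^ S.card * (1 - ((∑ c ∈ S, a c : ℤ) : R) * ε) := by
  induction S using Finset.induction_on with
  | empty => simp
  | insert c S hc ih =>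
    rw [Finset.prod_insert hc, ih, Finset.sum_insert hc, Finset.card_insert_of_notMem hc]
    push_cast
    linear_combination (-(-1) ^ S.card * (a c : R) * (∑ c ∈ S, (a c : R))) * hε

private theorem phi_wt1 {ε : R} (hε : ε * ε = 0) (hφ : φ (T 1) = 1 + ε) (s : Fin n → Bool)
    (c : Fin n) : φ (D.wt c (s c)) =
      -(1 - (((if c ∈ D.Us s then (4 : ℤ) else 2) * D.sgn c : ℤ) : R) * ε) := by
  have h1 := phi_T φ hε hφ
  unfold wt
  by_cases hb : s c = D.sign c
  · rw [if_pos hb, if_neg fun h' => (mem_Us D).1 h' hb, map_neg, h1]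
    push_cast
    ring
  · rw [if_neg hb, if_pos ((mem_Us D).2 hb), map_neg, h1]
    push_cast
    ring

private theorem phi_one {ε : R} (hε : ε * ε = 0) (hφ : φ (T 1) = 1 + ε) :
    φ D.normalizedBracket = 1 := by
  classical
  have hdd : φ dd = -2 := by
    unfold dd
    rw [map_sub, map_neg, phi_T φ hε hφ, phi_T φ hε hφ]
    push_cast
    ring
  have h1 : ∀ s : Fin n → Bool, φ ((∏ c, D.wt c (s c)) * dd ^ (D.comps s - 1)) =
      (((-1) ^ n * (-2) ^ finrank (ZMod 2) (Ks (ad D.lam (D.Us s)) Finset.univ Finset.univ) :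
        ℤ) : R) - (((-1) ^ n * ∑ c, D.sgn c * ((if c ∈ D.Us s then (4 : ℤ) else 2) *
          (-2) ^ finrank (ZMod 2) (Ks (ad D.lam (D.Us s)) Finset.univ Finset.univ)) :
        ℤ) : R) * ε := by
    intro s
    rw [map_mul, map_pow, hdd, map_prod, comps_Ks, Finset.prod_congr rfl fun c _ =>
      phi_wt1 D φ hε hφ s c, phi_prod hε]
    rw [Finset.card_univ, Fintype.card_fin]
    push_cast
    have e : ∑ c, (D.sgn c : R) * ((if c ∈ D.Us s then (4 : R) else 2) *
          (-2) ^ finrank (ZMod 2) (Ks (ad D.lam (D.Us s)) Finset.univ Finset.univ)) =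
        (∑ c, (if c ∈ D.Us s then (4 : R) else 2) * (D.sgn c : R)) *
          (-2) ^ finrank (ZMod 2) (Ks (ad D.lam (D.Us s)) Finset.univ Finset.univ) := by
      rw [Finset.sum_mul]
      exact Finset.sum_congr rfl fun c _ => by ring
    rw [e]
    ring
  have h2 : ∑ s : Fin n → Bool, ((-1) ^ n * (-2) ^ finrank (ZMod 2)
      (Ks (ad D.lam (D.Us s)) Finset.univ Finset.univ) : ℤ) = 1 := by
    rw [← Finset.mul_sum, sum_states D fun U => (-2) ^ finrank (ZMod 2)
      (Ks (ad D.lam U) Finset.univ Finset.univ), sum_all D.lam_symm, ← mul_pow]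
    norm_num
  have h3 : ∑ s : Fin n → Bool, ((-1) ^ n * ∑ c, D.sgn c *
      ((if c ∈ D.Us s then (4 : ℤ) else 2) *
          (-2) ^ finrank (ZMod 2) (Ks (ad D.lam (D.Us s)) Finset.univ Finset.univ)) : ℤ) = 0 := by
    rw [← Finset.mul_sum, Finset.sum_comm]
    simp only [← Finset.mul_sum]
    rw [Finset.sum_eq_zero, mul_zero]
    intro c _
    rw [sum_states D fun U => (if c ∈ U then (4 : ℤ) else 2) * (-2) ^ finrank (ZMod 2)
      (Ks (ad D.lam U) Finset.univ Finset.univ), sum_one D.lam_symm (D.lam_self c), mul_zero]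
  rw [f_eq, map_sum]
  simp only [h1]
  rw [Finset.sum_sub_distrib, ← Finset.sum_mul, ← Int.cast_sum, ← Int.cast_sum, h2, h3]
  simp

end Eval

theorem thm_SPU : St_SPU := by
  intro n D e k h
  have hε : (DualNumber.eps : DualNumber ℤ) * DualNumber.eps = 0 := DualNumber.eps_mul_eps
  let u : (DualNumber ℤ)ˣ :=
    { val := 1 + DualNumber.eps
      inv := 1 - DualNumber.eps
      val_inv := by linear_combination -hε
      inv_val := by linear_combination -hε }
  have hφ : eval₂ (Int.castRingHom (DualNumber ℤ)) u (T 1) = 1 + DualNumber.eps := by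
    rw [eval₂_T, zpow_one]
  have h1 := phi_one D _ hε hφ
  rw [h, map_mul, phi_T _ hε hφ, eval₂_C] at h1
  have h2 := congrArg TrivSqZeroExt.fst h1
  have h3 := congrArg TrivSqZeroExt.snd h1
  simp at h2 h3
  subst h2
  exact ⟨rfl, by simpa using h3⟩

end Pool.Agent.Helper16.Sparse
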