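import Pool.Agent.Helper16.Sparse.DomDefs
import Pool.Agent.Helper39.Thirds.Gauss

set_option autoImplicit false

/-!
# Dominant states of knotoid diagrams are unbalanced, strictly on mixed sets
-/

namespace Pool.Agent.Helper16.Sparse

open Knotoid Knotoid.GaussDiagram
open Pool.Agent.Helper39.Thirds (Fst fst_exn exn_sub num_add num_abs evens fam_evens inter_wrong
  Fam Un Ind w ind_gt ind_gt_two exists_circuit)
open scoped symmDiff

variable {n : ℕ} {D : GaussDiagram n} {s : Fin n → Bool}

theorem dom_loop {F : Finset (Fin n)} {c : Fin n} (hF : Fst D s F) (hl : D.IsEven s {c})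
    (hc : c ∉ F) : D.exn s (insert c F) = D.exn s {c} := by
  classical
  induction F using Finset.induction_on with
  | empty => rfl
  | insert f F hf ih =>
    have hcf : c ≠ f := fun h => hc (h ▸ Finset.mem_insert_self _ _)
    have hcF : c ∉ F := fun h => hc (Finset.mem_insert_of_mem h)
    have h1 : D.Sep s (insert f (insert c F)) f :=
      D.exists_sep (Finset.mem_insert_self _ _) fun C hC hE hfC => by
        have h2 : ∃ E ⊆ insert f F, D.IsEven s E ∧ f ∈ E := by
          by_cases hcC : c ∈ C
          · refine ⟨C ∆ {c}, ?_, even_symmDiff hE hl, ?_⟩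
            · intro x hx
              rcases Finset.mem_symmDiff.1 hx with ⟨h3, h4⟩ | ⟨h3, h4⟩
              · have h5 := hC h3
                rw [Finset.mem_singleton] at h4
                simp only [Finset.mem_insert] at h5 ⊢
                tauto
              · rw [Finset.mem_singleton] at h3
                exact absurd (h3 ▸ hcC) h4
            · rw [Finset.mem_symmDiff, Finset.mem_singleton]
              exact Or.inl ⟨hfC, fun h => hcf h.symm⟩
          · refine ⟨C, ?_, hE, hfC⟩
            intro x hx
            have h5 := hC hx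
            have h6 : x ≠ c := fun h => hcC (h ▸ hx)
            simp only [Finset.mem_insert] at h5 ⊢
            tauto
        obtain ⟨E, h3, h4, h5⟩ := h2
        rw [hF E h3 h4] at h5
        exact Finset.notMem_empty _ h5
    have hf' : f ∉ insert c F := by
      rw [Finset.mem_insert]
      rintro (h | h)
      · exact hcf h.symm
      · exact hf h
    rw [Finset.insert_comm, D.exn_insert_sep hf' (Sep.mono D h1 (Finset.subset_insert _ _))]
    exact ih (fun E hE => hF E (hE.trans (Finset.subset_insert _ _))) hcF

/-- The bound for the excess from the large forests. -/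
theorem dom_bound {X : Bool} {Z : Finset (Fin n)} (hZ : D.IsCycleUnion s Z)
    (hl : ∀ c ∈ Z, D.exn s {c} ≤ 1)
    (h : ∀ C : Finset (Fin n), C.Nonempty → D.IsEven s C →
      3 * num s (!X) C < C.card ∧ (num s (!X) C = 1 → 5 ≤ C.card)) :
    D.excess s Z + 1 ≤ 2 * |(num s true Z : ℤ) - num s false Z| ∧
    (0 < num s (!X) Z → D.excess s Z + 3 ≤ 2 * |(num s true Z : ℤ) - num s false Z|) := by
  classical
  set W : Finset (Fin n) := Finset.univ.filter fun c => s c = !X with hW
  set Z' : Finset (Fin n) := Z.filter fun c => ¬ D.IsEven s {c} with hZ'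
  have hZZ : Z' ⊆ Z := Finset.filter_subset _ _
  have hw : ∀ C ∈ evens D s Z', C.Nonempty → 1 ≤ w W C := by
    intro C hC hne
    have h1 := (h C hne hC.2).1
    unfold w
    rw [hW, inter_wrong X C]
    omega
  have hcard : ∀ C ∈ evens D s Z', C.card ≠ 1 := by
    intro C hC h1
    obtain ⟨c, rfl⟩ := Finset.card_eq_one.1 h1
    exact (Finset.mem_filter.1 (hC.1 (Finset.mem_singleton_self c))).2 hC.2
  have hnW : num s (!X) Z = (Z' ∩ W).card := by
    rw [← inter_wrong X Z, ← hW]
    congr 1
    ext x
    rw [Finset.mem_inter, Finset.mem_inter]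
    refine ⟨fun ⟨h1, h2⟩ => ⟨Finset.mem_filter.2 ⟨h1, fun h3 => ?_⟩, h2⟩,
      fun ⟨h1, h2⟩ => ⟨hZZ h1, h2⟩⟩
    have h4 := (h {x} (Finset.singleton_nonempty x) h3).1
    rw [hW, Finset.mem_filter] at h2
    have h5 : num s (!X) {x} = 1 := by
      unfold num
      rw [Finset.filter_true_of_mem, Finset.card_singleton]
      intro y hy
      rw [Finset.mem_singleton.1 hy]
      exact h2.2
    rw [h5, Finset.card_singleton] at h4
    omega
  have hUn : Un (evens D s Z') Z' := by
    refine ⟨fun C hC => hC.1, fun c hc => ?_⟩
    obtain ⟨C, h1, h2, h3⟩ := hZ.2 c (hZZ hc)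
    obtain ⟨K, hK, hKC, hcK, hind⟩ := exists_circuit (fam_evens (D := D) (s := s) Z)
      (C := C) ⟨h1, h2⟩ h3
    refine ⟨K, ⟨fun d hd => ?_, hK.2⟩, hcK⟩
    rw [hZ', Finset.mem_filter]
    refine ⟨hK.1 hd, fun h4 => ?_⟩
    by_cases hdc : d = c
    · rw [hdc] at h4
      exact (Finset.mem_filter.1 hc).2 h4
    · have h5 := hind {d} ⟨Finset.singleton_subset_iff.2 (hK.1 hd), h4⟩
        (Finset.singleton_subset_iff.2 (Finset.mem_erase.2 ⟨hdc, hd⟩))
      exact Finset.singleton_ne_empty d h5
  have hfst : ∀ F ⊆ Z', Ind (evens D s Z') F → Fst D s F := fun F hFZ hF E hE hEe =>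
    hF E ⟨hE.trans hFZ, hEe⟩ hE
  have hcon0 : ∀ F ⊆ Z', Ind (evens D s Z') F → D.excess s Z + 2 * F.card ≤ 2 * Z.card := by
    intro F hFZ hF
    have h1 := exn_sub (D := D) (s := s) (hFZ.trans hZZ)
    rw [fst_exn (hfst F hFZ hF)] at h1
    rw [← D.exn_eq]
    omega
  have hcon1 : ∀ c ∈ Z, D.IsEven s {c} → ∀ F ⊆ Z', Ind (evens D s Z') F →
      D.excess s Z + 2 * F.card + 1 ≤ 2 * Z.card := by
    intro c hc hce F hFZ hF
    have hcF : c ∉ F := fun h1 => (Finset.mem_filter.1 (hFZ h1)).2 hce
    have h1 := exn_sub (D := D) (s := s)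
      (Finset.insert_subset hc (hFZ.trans hZZ) : insert c F ⊆ Z)
    rw [dom_loop (hfst F hFZ hF) hce hcF, Finset.card_insert_of_notMem hcF] at h1
    have h2 := hl c hc
    rw [← D.exn_eq]
    omega
  have habs := num_abs (s := s) X Z
  rcases Nat.eq_zero_or_pos (num s (!X) Z) with h0 | h0
  · refine ⟨?_, fun h1 => absurd h0 (by omega)⟩
    rw [habs, h0, abs_of_nonneg (by simp)]
    obtain ⟨c, hc⟩ := hZ.1
    by_cases hce : D.IsEven s {c}
    · have h2 := hcon1 c hc hce ∅ (Finset.empty_subset _) fun E _ h3 =>
        Finset.subset_empty.1 h3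
      rw [Finset.card_empty] at h2
      push_cast at h2 ⊢
      omega
    · have hcZ : c ∈ Z' := Finset.mem_filter.2 ⟨hc, hce⟩
      have h2 := hcon0 {c} (Finset.singleton_subset_iff.2 hcZ) (by
        intro E hE hEc
        rcases Finset.subset_singleton_iff.1 hEc with h | h
        · exact h
        · exact absurd (by rw [h, Finset.card_singleton]) (hcard E hE))
      rw [Finset.card_singleton] at h2
      push_cast at h2 ⊢
      omega
  · have key : D.excess s Z + 3 ≤ 2 * |(num s true Z : ℤ) - num s false Z| := by
      by_cases hloop : ∃ c ∈ Z, D.IsEven s {c}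
      · obtain ⟨c, hc, hce⟩ := hloop
        obtain ⟨F, hFZ, hF, hFc⟩ := ind_gt (fam_evens Z') hUn hw
          (Finset.card_pos.1 (by rw [← hnW]; exact h0))
        rw [← hnW] at hFc
        have h2 := hcon1 c hc hce F hFZ hF
        have h3 := Finset.card_le_card (hFZ.trans hZZ)
        rw [habs, abs_of_nonneg (by omega)]
        omega
      · rcases Nat.lt_or_ge (num s (!X) Z) 2 with hm | hm
        · have h1 : num s (!X) Z = 1 := by omega
          -- a cycle through the only wrong crossing
          have hne : (Z.filter fun c => s c = !X).Nonempty := by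
            apply Finset.card_pos.1
            unfold num at h1
            omega
          obtain ⟨c, hc⟩ := hne
          rw [Finset.mem_filter] at hc
          obtain ⟨C0, hC0, hC0e, hcC0⟩ := hZ.2 c hc.1
          obtain ⟨K, hK, hKC, hcK, hind⟩ := exists_circuit (fam_evens (D := D) (s := s) Z)
            (C := C0) ⟨hC0, hC0e⟩ hcC0
          have hKn : num s (!X) K = 1 := by
            have h2 : num s (!X) K ≤ num s (!X) Z := by
              unfold num
              exact Finset.card_le_card (Finset.filter_subset_filter _ hK.1)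
            have h3 : 0 < num s (!X) K := by
              unfold num
              exact Finset.card_pos.2 ⟨c, Finset.mem_filter.2 ⟨hcK, hc.2⟩⟩
            omega
          have h5 := (h K ⟨c, hcK⟩ hK.2).2 hKn
          have hFZ : K.erase c ⊆ Z := (Finset.erase_subset _ _).trans hK.1
          have h6 := exn_sub (D := D) (s := s) hFZ
          rw [fst_exn (D := D) (s := s) fun E hE hEe => hind E ⟨hE.trans hFZ, hEe⟩ hE,
            Finset.card_erase_of_mem hcK] at h6
          have h7 := Finset.card_le_card hFZ
          rw [Finset.card_erase_of_mem hcK] at h7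
          rw [habs, ← D.exn_eq, h1, abs_of_nonneg (by push_cast; omega)]
          push_cast
          omega
        · obtain ⟨F, hFZ, hF, hFc⟩ := ind_gt_two (fam_evens Z') hUn hw hcard
            (by rw [← hnW]; exact hm)
          rw [← hnW] at hFc
          have h2 := hcon0 F hFZ hF
          have h3 := Finset.card_le_card (hFZ.trans hZZ)
          rw [habs, abs_of_nonneg (by omega)]
          omega
    exact ⟨by omega, fun _ => key⟩

/-- A dominant state of a knotoid diagram is unbalanced, strictly on mixed sets. -/
theorem Dominant.unbalanced {X : Bool} (h : Dominant D X s) :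
    D.Unbalanced s ∧ MixedStrict D s := by
  classical
  have hl : ∀ c, D.exn s {c} ≤ 1 := by
    intro c
    have h1 := h.1 c
    unfold exn
    rw [Finset.card_singleton]
    omega
  refine ⟨fun Z hZ => ?_, fun Z hZ ht hf => ?_⟩
  · have := (dom_bound hZ (fun c _ => hl c) h.2).1
    omega
  · have := (dom_bound hZ (fun c _ => hl c) h.2).2 (by
      cases X
      · simpa using ht
      · simpa using hf)
    omega

/-- The state all of whose smoothings are `X` in a weakly adequate diagram is dominant. -/
theorem Dominant.of_adequate {X : Bool} (h : D.Adequate X) : Dominant D X fun _ => X := by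
  classical
  have h0 : ∀ C : Finset (Fin n), num (fun _ => X) (!X) C = 0 := by
    intro C
    unfold num
    rw [Finset.card_eq_zero, Finset.filter_eq_empty_iff]
    intro c _ hc
    cases X <;> simp at hc
  refine ⟨fun c => ?_, fun C hC _ => ?_⟩
  · have h1 := h c
    have h2 : change (fun _ => X) {c} = Function.update (fun _ => X) c (!X) := by
      funext d
      unfold change
      by_cases hd : d = c
      · rw [hd, Function.update_self, if_pos (Finset.mem_singleton_self c)]
      · rw [Function.update_of_ne hd, if_neg (by rwa [Finset.mem_singleton])]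
    rw [h2]
    exact h1
  · rw [h0]
    refine ⟨?_, fun h1 => absurd h1 (by norm_num)⟩
    rw [mul_zero]
    exact Finset.card_pos.2 hC

end Pool.Agent.Helper16.Sparse
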