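import Pool.Agent.Helper16.KUnb.Defs

set_option autoImplicit false

/-!
# Dominant states of knotoid diagrams: definition
-/

namespace Pool.Agent.Helper16.Sparse

open Knotoid Knotoid.GaussDiagram

/-- The smoothing `X` dominates in the state `s`: switching one smoothing of `s` does not increase
the number of components (so the loops of the state graph of `s` are harmless), fewer than a third
of the crossings of every cycle of the state graph are wrong (not `X`-smoothings of `s`), and cycles
with exactly one wrong crossing have at least five crossings. (In terms of even subgraphs, the
unions of edge-disjoint cycles.) -/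
def Dominant {n : ℕ} (D : GaussDiagram n) (X : Bool) (s : Fin n → Bool) : Prop :=
  (∀ c, D.comps (change s {c}) ≤ D.comps s) ∧
  ∀ C : Finset (Fin n), C.Nonempty → D.IsEven s C →
    3 * num s (!X) C < C.card ∧ (num s (!X) C = 1 → 5 ≤ C.card)

end Pool.Agent.Helper16.Sparse
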