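import Pool.Agent.Helper16.KUnb.Main
import Pool.Agent.Helper16.Knotoid.Even

set_option autoImplicit false

/-!
# The faces of the state graph of a planar knotoid diagram

The state graph of a planar diagram is planar, its faces are the regions of the diagram: the edge
`c` separates the two regions at `c` which are joined by the smoothing.
-/

namespace Pool.Agent.Helper16.Knotoid

open Module

namespace GaussDiagram

variable {n : ℕ} (D : GaussDiagram n)

/-- one of the two regions at `c` joined by the smoothing of `s` -/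
def chA (s : Fin n → Bool) (c : Fin n) : Fin (2 * n + 1) × Bool :=
  if s c = D.sign c then ((D.fst c).succ, true) else ((D.fst c).castSucc, true)

/-- the other region at `c` joined by the smoothing of `s` -/
def chB (s : Fin n → Bool) (c : Fin n) : Fin (2 * n + 1) × Bool :=
  if s c = D.sign c then ((D.fst c).castSucc, false) else ((D.fst c).succ, false)

theorem ch_sum {ψ : Fin (2 * n + 1) × Bool → ZMod 2} (hψ : ψ ∈ compat D.Corner)
    (s : Fin n → Bool) (c : Fin n) : ψ (D.chA s c) + ψ (D.chB s c) =
      (D.gmat s).mulVec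
        (fun c => jump ψ (D.overPass c).castSucc + jump ψ (D.overPass c).succ) c := by
  set x : Fin n → ZMod 2 :=
    fun c => jump ψ (D.overPass c).castSucc + jump ψ (D.overPass c).succ with hx
  have e1 := (mem_compat.1 hψ) _ _ (Corner.sw c)
  have e2 := (mem_compat.1 hψ) _ _ (Corner.nw c)
  have e3 := (mem_compat.1 hψ) _ _ (Corner.ne c)
  have e4 := (mem_compat.1 hψ) _ _ (Corner.se c)
  have hA : ψ ((D.fst c).succ, true) + ψ ((D.fst c).castSucc, false) =
      jump ψ (D.overPass c).castSucc + jump ψ (D.underPass c).succ := by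
    unfold jump
    unfold fst snd at e1 e2 e3 e4
    unfold fst overPass underPass
    cases hs : D.sign c
    · rw [hs] at e1 e2 e3 e4
      simp only [Bool.not_false] at e1 e2 e3 e4
      rw [← e4, ← e3]
      have key : ∀ a b c : ZMod 2, a + b = b + c + (a + c) := by decide
      exact key _ _ _
    · rw [hs] at e1 e2 e3 e4
      simp only [Bool.not_true] at e1 e2 e3 e4
      rw [← e1, ← e2]
      have key : ∀ a b c : ZMod 2, a + b = c + b + (c + a) := by decide
      exact key _ _ _
  have hB : jump ψ (D.overPass c).castSucc + jump ψ (D.underPass c).succ = Lv D.lam x c := by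
    have h3 := D.jump_eq hψ (D.overPass c) (by omega)
    have h4 := D.jump_eq hψ ((D.underPass c : ℕ) + 1) (by omega)
    have h5 : (⟨(D.overPass c : ℕ), by omega⟩ : Fin (2 * n + 1)) = (D.overPass c).castSucc := rfl
    have h6 : (⟨(D.underPass c : ℕ) + 1, by omega⟩ : Fin (2 * n + 1)) = (D.underPass c).succ :=
      rfl
    rw [← h5, ← h6, h3, h4]
    have h7 := mulVec_arcMat (P := D.overPass) (Q := D.underPass)
      (fun c => D.sign c != D.sign c) 0 x c
    have h8 : ¬ ((D.sign c != D.sign c) = true) := by simp
    rw [if_neg h8] at h7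
    rw [CharTwo.sub_eq_add] at h7
    rw [← h7]
    rfl
  have hC : jump ψ (D.fst c).castSucc + jump ψ (D.fst c).succ = x c := by
    have h3 := D.jump_over_under hψ c
    show jump ψ (D.pos (c, D.sign c)).castSucc + jump ψ (D.pos (c, D.sign c)).succ =
      jump ψ (D.overPass c).castSucc + jump ψ (D.overPass c).succ
    unfold overPass underPass at *
    cases hs : D.sign c
    · exact h3.symm
    · rfl
  rw [gmat_mulVec]
  unfold chA chB
  by_cases h : s c = D.sign c
  · rw [if_pos h, if_pos h, if_pos h, add_zero, hA, hB]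
  · rw [if_neg h, if_neg h, if_neg h, ← hB, ← hA, ← hC]
    unfold jump
    have key : ∀ a b c d : ZMod 2, a + d = c + b + (a + b + (c + d)) := by decide
    exact key _ _ _ _

/-- elements of the kernel are jumps of functions on the components -/
theorem exists_of_ker {s : Fin n → Bool} {y : Fin n → ZMod 2} (hy : y ∈ D.Kz s) :
    ∃ φ ∈ compat (D.Join s), ∀ c, φ (D.overPass c).castSucc + φ (D.overPass c).succ = y c := by
  refine ⟨arcParam D.overPass D.underPass (0, y), ?_, fun c => ?_⟩
  · rw [compat_join, arcCond_eq_map D.pass_inj]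
    exact ⟨(0, y), ⟨trivial, hy⟩, rfl⟩
  · rw [arcParam_apply, arcParam_apply]
    simp only [Fin.val_castSucc, Fin.val_succ]
    rw [arcFun_succ_P D.pass_inj, ← add_assoc, CharTwo.add_self_eq_zero, zero_add]

theorem sum_even {s : Fin n → Bool} {C : Finset (Fin n)} (hC : D.IsEven s C)
    {φ : Fin (2 * n + 1) → ZMod 2} (hφ : φ ∈ compat (D.Join s)) :
    ∑ c ∈ C, (φ (D.overPass c).castSucc + φ (D.overPass c).succ) = 0 := by
  classical
  have : Fintype (Quot (D.Join s)) := Fintype.ofFinite _
  rw [even_iff] at hC
  set F : Quot (D.Join s) → ZMod 2 := Quot.lift φ hφ with hF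
  have h1 : ∀ c, φ (D.overPass c).castSucc + φ (D.overPass c).succ =
      ∑ q, F q * ((if D.end₁ s c = q then (1 : ZMod 2) else 0) +
        if D.end₂ s c = q then 1 else 0) := by
    intro c
    simp only [mul_add, mul_ite, mul_one, mul_zero, Finset.sum_add_distrib, Finset.sum_ite_eq,
      Finset.mem_univ, if_true]
    rfl
  rw [Finset.sum_congr rfl fun c _ => h1 c, Finset.sum_comm]
  refine Finset.sum_eq_zero fun q _ => ?_
  rw [← Finset.mul_sum]
  have := hC q
  rw [this, mul_zero]

/-- coboundaries of functions on the regions are even subgraphs of the state graph -/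
theorem even_psi {ψ : Fin (2 * n + 1) × Bool → ZMod 2} (hψ : ψ ∈ compat D.Corner)
    (s : Fin n → Bool) :
    D.IsEven s (Finset.univ.filter fun c => ψ (D.chA s c) ≠ ψ (D.chB s c)) := by
  classical
  rw [even_iff]
  intro q
  set φ : Fin (2 * n + 1) → ZMod 2 := fun k => if Quot.mk (D.Join s) k = q then 1 else 0 with hφd
  have hφ : φ ∈ compat (D.Join s) := by
    rw [mem_compat]
    intro a b hab
    rw [hφd]
    beta_reduce
    rw [Quot.sound hab]
  have hy := D.ker_of_compat s hφ
  have hy' : (D.gmat s).mulVec
      (fun c => φ (D.overPass c).castSucc + φ (D.overPass c).succ) = 0 := hy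
  set x : Fin n → ZMod 2 :=
    fun c => jump ψ (D.overPass c).castSucc + jump ψ (D.overPass c).succ with hx
  have h1 : dotProduct ((D.gmat s).mulVec x)
      (fun c => φ (D.overPass c).castSucc + φ (D.overPass c).succ) = 0 := by
    rw [dotProduct_comm, Matrix.dotProduct_mulVec]
    have : Matrix.vecMul (fun c => φ (D.overPass c).castSucc + φ (D.overPass c).succ)
        (D.gmat s) = (D.gmat s).mulVec
          (fun c => φ (D.overPass c).castSucc + φ (D.overPass c).succ) := by
      funext e
      unfold Matrix.vecMul Matrix.mulVec dotProduct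
      refine Finset.sum_congr rfl fun f _ => ?_
      beta_reduce
      rw [D.gmat_symm s f e, mul_comm]
    rw [this, hy', zero_dotProduct]
  refine Eq.trans ?_ h1
  rw [Finset.sum_filter]
  unfold dotProduct
  refine Finset.sum_congr rfl fun c _ => ?_
  rw [← D.ch_sum hψ s c]
  have key : ∀ a b z : ZMod 2, (if a ≠ b then z else 0) = (a + b) * z := by decide
  exact key _ _ _

/-- every even subgraph is a coboundary of a function on the regions -/
theorem exists_psi (hD : D.Planar) {s : Fin n → Bool} {C : Finset (Fin n)}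
    (hC : D.IsEven s C) : ∃ ψ ∈ compat D.Corner, ∀ c, c ∈ C ↔ ψ (D.chA s c) ≠ ψ (D.chB s c) := by
  classical
  set v : Fin n → ZMod 2 := fun c => if c ∈ C then 1 else 0 with hv
  have hmem : v ∈ LinearMap.range (D.gmat s).mulVecLin := by
    by_contra hcon
    obtain ⟨ℓ, hℓv, hℓ⟩ := Submodule.exists_le_ker_of_notMem hcon
    set y : Fin n → ZMod 2 := fun c => ℓ (Pi.single c 1) with hy
    have hℓs : ∀ u : Fin n → ZMod 2, ℓ u = ∑ c, u c * y c := by
      intro u
      have h1 : u = ∑ c, u c • (Pi.single c 1 : Fin n → ZMod 2) := by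
        funext d
        rw [Finset.sum_apply, Finset.sum_eq_single d]
        · simp
        · intro b _ hb
          simp [Pi.single_eq_of_ne (Ne.symm hb)]
        · simp
      conv_lhs => rw [h1]
      rw [map_sum]
      refine Finset.sum_congr rfl fun c _ => ?_
      rw [map_smul, smul_eq_mul]
    have hyk : y ∈ D.Kz s := by
      show (D.gmat s).mulVec y = 0
      funext e
      have h1 : ℓ ((D.gmat s).mulVec (Pi.single e 1)) = 0 :=
        hℓ ⟨Pi.single e 1, rfl⟩
      rw [hℓs] at h1
      rw [Pi.zero_apply, ← h1]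
      unfold Matrix.mulVec dotProduct
      refine Finset.sum_congr rfl fun c _ => ?_
      rw [Finset.sum_eq_single e]
      · beta_reduce
        rw [Pi.single_eq_same, mul_one, D.gmat_symm s c e]
      · intro b _ hb
        rw [Pi.single_eq_of_ne hb, mul_zero]
      · simp
    obtain ⟨φ, hφ, hφy⟩ := D.exists_of_ker hyk
    have h2 := D.sum_even hC hφ
    apply hℓv
    rw [hℓs, ← h2]
    have h3 : ∀ c, v c * y c = if c ∈ C then y c else 0 := by
      intro c
      rw [hv]
      beta_reduce
      split_ifs <;> simp
    rw [Finset.sum_congr rfl fun c _ => h3 c, Finset.sum_ite_mem, Finset.univ_inter]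
    exact Finset.sum_congr rfl fun c _ => (hφy c).symm
  obtain ⟨x, hx⟩ := hmem
  obtain ⟨ψ, hψ, hψx⟩ := D.exists_face_function hD x
  refine ⟨ψ, hψ, fun c => ?_⟩
  have h1 := D.ch_sum hψ s c
  rw [funext hψx] at h1
  have h2 : (D.gmat s).mulVec x c = v c := congrFun hx c
  rw [h2] at h1
  have key : ∀ a b z : ZMod 2, a + b = z → (z = 1 ↔ a ≠ b) := by decide
  rw [← key _ _ _ h1, hv]
  by_cases hc : c ∈ C <;> simp [hc]

end GaussDiagram

end Pool.Agent.Helper16.Knotoid
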