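import Pool.Agent.Helper16.KUnb.Defs

set_option autoImplicit false

/-!
# Prevailing smoothings in states of knotoid diagrams: definition
-/

namespace Pool.Agent.Helper16.Sparse

open Knotoid Knotoid.GaussDiagram

/-- The smoothing `X` prevails in the state `s`: switching one smoothing of `s` does not increase
the number of components (so the loops of the state graph of `s` are harmless), and every cycle of
the state graph which contains a wrong crossing (not an `X`-smoothing of `s`) contains at least
three more right than wrong crossings. (In terms of even subgraphs, the unions of edge-disjoint
cycles; the two conditions are equivalent.) -/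
def Prevails {n : ℕ} (D : GaussDiagram n) (X : Bool) (s : Fin n → Bool) : Prop :=
  (∀ c, D.comps (change s {c}) ≤ D.comps s) ∧
  ∀ C : Finset (Fin n), D.IsEven s C → 0 < num s (!X) C → num s (!X) C + 3 ≤ num s X C

end Pool.Agent.Helper16.Sparse
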