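import Pool.Agent.Helper16.Sparse.St
import Pool.Agent.Helper16.Sparse.FarDefs

set_option autoImplicit false

/-!
# Wrong crossings which are far apart
-/

namespace Pool.Agent.Helper16.Sparse

open Pool.Agent.Helper16.Knotoid Pool.Agent.Helper16.Knotoid.GaussDiagram
open scoped symmDiff

variable {n : ℕ} {D : GaussDiagram n} {s : Fin n → Bool}

/-- sets of crossings without cycles -/
private def Fst (D : GaussDiagram n) (s : Fin n → Bool) (F : Finset (Fin n)) : Prop :=
  ∀ E ⊆ F, D.IsEven s E → E = ∅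

private theorem fst_exn {F : Finset (Fin n)} (h : Fst D s F) : D.exn s F = 0 := by
  classical
  induction F using Finset.induction_on with
  | empty => exact D.exn_empty s
  | insert c F hc ih =>
    have h1 : D.Sep s (insert c F) c :=
      D.exists_sep (Finset.mem_insert_self c F) fun C hC hE hcC => by
        rw [h C hC hE] at hcC
        exact Finset.notMem_empty _ hcC
    rw [D.exn_insert_sep hc (Sep.mono D h1 (Finset.subset_insert c F))]
    exact ih fun E hE => h E (hE.trans (Finset.subset_insert c F))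

private theorem exn_add (X Y : Finset (Fin n)) : D.exn s (X ∪ Y) ≤ D.exn s Y + 2 * X.card := by
  classical
  induction X using Finset.induction_on with
  | empty => simp
  | insert c X hc ih =>
    rw [Finset.insert_union, Finset.card_insert_of_notMem hc]
    by_cases h : c ∈ X ∪ Y
    · rw [Finset.insert_eq_of_mem h]
      omega
    · have := (D.exn_insert s h).2
      omega

private theorem exn_sub {F Z : Finset (Fin n)} (h : F ⊆ Z) :
    D.exn s Z + 2 * F.card ≤ D.exn s F + 2 * Z.card := by
  classical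
  have h1 := exn_add (D := D) (s := s) (Z \ F) F
  rw [Finset.sdiff_union_of_subset h] at h1
  have h2 := Finset.card_sdiff_add_card_eq_card h
  omega

private theorem even_loop {c : Fin n} (h : D.end₁ s c = D.end₂ s c) : D.IsEven s {c} := by
  classical
  rw [even_iff]
  intro q
  rw [Finset.sum_singleton, h]
  exact CharTwo.add_self_eq_zero _

private theorem even_pair {c d : Fin n} (hcd : c ≠ d)
    (h : (D.end₁ s c = D.end₁ s d ∧ D.end₂ s c = D.end₂ s d) ∨
      (D.end₁ s c = D.end₂ s d ∧ D.end₂ s c = D.end₁ s d)) : D.IsEven s {c, d} := by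
  classical
  rw [even_iff]
  intro q
  rw [Finset.sum_pair hcd]
  rcases h with ⟨h1, h2⟩ | ⟨h1, h2⟩
  · rw [h1, h2]
    exact CharTwo.add_self_eq_zero _
  · rw [h1, h2, add_comm (if D.end₁ s d = q then (1 : ZMod 2) else 0)]
    exact CharTwo.add_self_eq_zero _

/-- an even set which contains `c` contains a neighbour at the component `q` -/
private theorem exists_other {C : Finset (Fin n)} (hC : D.IsEven s C) {c : Fin n} (hc : c ∈ C)
    {q : Quot (D.Join s)} (hq : (q = D.end₁ s c ∧ q ≠ D.end₂ s c) ∨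
      (q = D.end₂ s c ∧ q ≠ D.end₁ s c)) :
    ∃ d ∈ C, d ≠ c ∧ (q = D.end₁ s d ∨ q = D.end₂ s d) := by
  classical
  by_contra hn
  push Not at hn
  rw [even_iff] at hC
  have h1 := hC q
  rw [Finset.sum_eq_single c] at h1
  · rcases hq with ⟨h2, h3⟩ | ⟨h2, h3⟩
    · rw [if_pos h2.symm, if_neg (Ne.symm h3)] at h1
      exact absurd h1 (by decide)
    · rw [if_pos h2.symm, if_neg (Ne.symm h3)] at h1
      exact absurd h1 (by decide)
  · intro d hd hdc
    obtain ⟨h2, h3⟩ := hn d hd hdc
    rw [if_neg (Ne.symm h2), if_neg (Ne.symm h3), add_zero]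
  · exact fun h => absurd hc h

/-- minimal even sets through a crossing -/
private theorem exists_min {Z : Finset (Fin n)} {c : Fin n} (hZ : ∃ C ⊆ Z, D.IsEven s C ∧ c ∈ C) :
    ∃ C ⊆ Z, D.IsEven s C ∧ c ∈ C ∧ ∀ E ⊆ C, D.IsEven s E → c ∉ E → E = ∅ := by
  classical
  obtain ⟨C0, h0, h0', h0''⟩ := hZ
  obtain ⟨C, hC, hmin⟩ := Finset.exists_min_image
    (Z.powerset.filter fun C => D.IsEven s C ∧ c ∈ C) Finset.card
    ⟨C0, Finset.mem_filter.2 ⟨Finset.mem_powerset.2 h0, h0', h0''⟩⟩
  rw [Finset.mem_filter, Finset.mem_powerset] at hC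
  refine ⟨C, hC.1, hC.2.1, hC.2.2, fun E hE hEe hcE => ?_⟩
  have h1 : D.IsEven s (C ∆ E) := even_symmDiff hC.2.1 hEe
  have h2 : C ∆ E = C \ E := by
    ext x
    rw [Finset.mem_symmDiff, Finset.mem_sdiff]
    exact ⟨fun h => h.resolve_right fun h' => h'.2 (hE h'.1), Or.inl⟩
  rw [h2] at h1
  have h3 := hmin (C \ E) (Finset.mem_filter.2 ⟨Finset.mem_powerset.2
    (Finset.sdiff_subset.trans hC.1), h1, Finset.mem_sdiff.2 ⟨hC.2.2, hcE⟩⟩)
  have h4 := Finset.card_sdiff_add_card_eq_card hE
  exact Finset.card_eq_zero.1 (by omega)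

variable {X : Bool}

/-- a path of three crossings around a wrong crossing -/
private theorem exists_three (h5 : ∀ c, s c ≠ X → ∀ C : Finset (Fin n), D.IsEven s C → c ∈ C →
    5 ≤ C.card) {Z : Finset (Fin n)} {c : Fin n} (hc : s c ≠ X)
    (hZ : ∃ C ⊆ Z, D.IsEven s C ∧ c ∈ C) :
    ∃ F ⊆ Z, F.card = 3 ∧ (∀ x ∈ F, D.Touch s c x) ∧ Fst D s F := by
  classical
  obtain ⟨C, hCZ, hC, hcC, hmin⟩ := exists_min hZ
  have hne : D.end₁ s c ≠ D.end₂ s c := fun h => by
    have := h5 c hc {c} (even_loop h) (Finset.mem_singleton_self c)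
    simp at this
  obtain ⟨d, hd, hdc, hd1⟩ := exists_other hC hcC (q := D.end₁ s c) (Or.inl ⟨rfl, hne⟩)
  obtain ⟨d', hd', hdc', hd1'⟩ := exists_other hC hcC (q := D.end₂ s c) (Or.inr ⟨rfl, hne.symm⟩)
  have hdd : d ≠ d' := by
    rintro rfl
    have h1 : D.IsEven s {c, d} := by
      refine even_pair (Ne.symm hdc) ?_
      rcases hd1 with h | h <;> rcases hd1' with h' | h'
      · exact absurd (h.trans h'.symm) hne
      · exact Or.inl ⟨h, h'⟩
      · exact Or.inr ⟨h, h'⟩
      · exact absurd (h.trans h'.symm) hne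
    have h2 := h5 c hc {c, d} h1 (Finset.mem_insert_self _ _)
    rw [Finset.card_pair (Ne.symm hdc)] at h2
    omega
  have hcard : ({c, d, d'} : Finset (Fin n)).card = 3 :=
    Finset.card_eq_three.2 ⟨c, d, d', Ne.symm hdc, Ne.symm hdc', hdd, rfl⟩
  have hsub : ({c, d, d'} : Finset (Fin n)) ⊆ C := by
    intro x hx
    simp only [Finset.mem_insert, Finset.mem_singleton] at hx
    rcases hx with rfl | rfl | rfl <;> assumption
  refine ⟨{c, d, d'}, hsub.trans hCZ, hcard, ?_, ?_⟩
  · intro x hx
    simp only [Finset.mem_insert, Finset.mem_singleton] at hx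
    rcases hx with rfl | rfl | rfl
    · exact ⟨D.end₁ s x, Or.inl rfl, Or.inl rfl⟩
    · exact ⟨D.end₁ s c, Or.inl rfl, hd1⟩
    · exact ⟨D.end₂ s c, Or.inr rfl, hd1'⟩
  · intro E hE hEe
    by_cases hcE : c ∈ E
    · have h1 := h5 c hc E hEe hcE
      have h2 := Finset.card_le_card hE
      omega
    · exact hmin E (hE.trans hsub) hEe hcE

/-- a large set without cycles -/
private theorem exists_fst (h : D.FarApart X s) {Z : Finset (Fin n)} (hZ : D.IsCycleUnion s Z)
    (hm : (Z.filter fun c => s c ≠ X).Nonempty) :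
    ∃ F ⊆ Z, 2 * (Z.filter fun c => s c ≠ X).card + 2 ≤ F.card ∧ Fst D s F := by
  classical
  obtain ⟨-, h5, hfar⟩ := h
  set N := Z.filter fun c => s c ≠ X with hN
  have hNZ : ∀ c ∈ N, c ∈ Z ∧ s c ≠ X := fun c hc => Finset.mem_filter.1 hc
  rcases Nat.lt_or_ge N.card 2 with h1 | h1
  · obtain ⟨c, hc⟩ := hm
    obtain ⟨C, hCZ, hC, hcC, hmin⟩ := exists_min (hZ.2 c (hNZ c hc).1)
    have h2 := h5 c (hNZ c hc).2 C hC hcC
    have h3 : 0 < N.card := Finset.card_pos.2 ⟨c, hc⟩
    refine ⟨C.erase c, (Finset.erase_subset c C).trans hCZ, ?_, ?_⟩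
    · rw [Finset.card_erase_of_mem hcC]
      omega
    · intro E hE hEe
      exact hmin E (hE.trans (Finset.erase_subset c C)) hEe fun hcE =>
        Finset.notMem_erase c C (hE hcE)
  · have hex : ∀ c : Fin n, ∃ F : Finset (Fin n), c ∈ N → F ⊆ Z ∧ F.card = 3 ∧
        (∀ x ∈ F, D.Touch s c x) ∧ Fst D s F := by
      intro c
      by_cases hc : c ∈ N
      · obtain ⟨F, h1, h2, h3, h4⟩ := exists_three h5 (hNZ c hc).2 (hZ.2 c (hNZ c hc).1)
        exact ⟨F, fun _ => ⟨h1, h2, h3, h4⟩⟩
      · exact ⟨∅, fun h => absurd h hc⟩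
    choose F hF using hex
    have hsymm : ∀ a b, D.Touch s a b → D.Touch s b a := fun a b ⟨q, h1, h2⟩ => ⟨q, h2, h1⟩
    have hself : ∀ a, D.Touch s a a := fun a => ⟨D.end₁ s a, Or.inl rfl, Or.inl rfl⟩
    have hdis : ∀ c ∈ N, ∀ c' ∈ N, c ≠ c' → ∀ x ∈ F c, ∀ y ∈ F c', ¬ D.Touch s x y := by
      intro c hc c' hc' hcc x hx y hy hxy
      exact hfar c c' (hNZ c hc).2 (hNZ c' hc').2 hcc x y
        ⟨(hF c hc).2.2.1 x hx, hxy, hsymm _ _ ((hF c' hc').2.2.1 y hy)⟩
    refine ⟨N.biUnion F, ?_, ?_, ?_⟩
    · exact Finset.biUnion_subset.2 fun c hc => (hF c hc).1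
    · rw [Finset.card_biUnion]
      · rw [Finset.sum_congr rfl fun c hc => (hF c hc).2.1, Finset.sum_const, smul_eq_mul]
        omega
      · intro c hc c' hc' hcc
        show Disjoint (F c) (F c')
        rw [Finset.disjoint_left]
        intro x hx hx'
        exact hdis c hc c' hc' hcc x hx x hx' (hself x)
    · intro E hE hEe
      by_contra hne
      obtain ⟨x, hx⟩ := Finset.nonempty_iff_ne_empty.2 hne
      obtain ⟨c, hc, hxc⟩ := Finset.mem_biUnion.1 (hE hx)
      have h2 : D.IsEven s (E ∩ F c) := by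
        intro q
        by_cases hq : ∃ y ∈ F c, q = D.end₁ s y ∨ q = D.end₂ s y
        · obtain ⟨y, hy, hyq⟩ := hq
          have h3 : ∀ z ∈ E, (q = D.end₁ s z ∨ q = D.end₂ s z) → z ∈ F c := by
            intro z hz hzq
            obtain ⟨c', hc', hzc⟩ := Finset.mem_biUnion.1 (hE hz)
            by_cases hcc : c = c'
            · rw [hcc]; exact hzc
            · exact absurd ⟨q, hyq, hzq⟩ (hdis c hc c' hc' hcc y hy z hzc)
          have e1 : ((E ∩ F c).filter fun c => D.end₁ s c = q) =
              E.filter fun c => D.end₁ s c = q := by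
            ext z
            simp only [Finset.mem_filter, Finset.mem_inter]
            exact ⟨fun h => ⟨h.1.1, h.2⟩, fun h => ⟨⟨h.1, h3 z h.1 (Or.inl h.2.symm)⟩, h.2⟩⟩
          have e2 : ((E ∩ F c).filter fun c => D.end₂ s c = q) =
              E.filter fun c => D.end₂ s c = q := by
            ext z
            simp only [Finset.mem_filter, Finset.mem_inter]
            exact ⟨fun h => ⟨h.1.1, h.2⟩, fun h => ⟨⟨h.1, h3 z h.1 (Or.inr h.2.symm)⟩, h.2⟩⟩
          rw [e1, e2]
          exact hEe q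
        · push Not at hq
          have e1 : ((E ∩ F c).filter fun c => D.end₁ s c = q) = ∅ := by
            rw [Finset.filter_eq_empty_iff]
            intro z hz h
            exact (hq z (Finset.mem_inter.1 hz).2).1 h.symm
          have e2 : ((E ∩ F c).filter fun c => D.end₂ s c = q) = ∅ := by
            rw [Finset.filter_eq_empty_iff]
            intro z hz h
            exact (hq z (Finset.mem_inter.1 hz).2).2 h.symm
          rw [e1, e2]
          exact ⟨0, rfl⟩
      have h3 := (hF c hc).2.2.2 (E ∩ F c) Finset.inter_subset_right h2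
      have h4 : x ∈ E ∩ F c := Finset.mem_inter.2 ⟨hx, hxc⟩
      rw [h3] at h4
      exact Finset.notMem_empty _ h4

private theorem num_add (X : Bool) (Z : Finset (Fin n)) :
    num s X Z + (Z.filter fun c => s c ≠ X).card = Z.card ∧
      num s (!X) Z = (Z.filter fun c => s c ≠ X).card := by
  classical
  refine ⟨Finset.card_filter_add_card_filter_not _, ?_⟩
  unfold num
  congr 1
  refine Finset.filter_congr fun c _ => ?_
  cases s c <;> cases X <;> simp

private theorem num_abs (X : Bool) (Z : Finset (Fin n)) :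
    |(num s true Z : ℤ) - num s false Z| =
      |(Z.card : ℤ) - 2 * (Z.filter fun c => s c ≠ X).card| := by
  obtain ⟨h1, h2⟩ := num_add (s := s) X Z
  cases X
  · rw [abs_sub_comm]
    congr 1
    simp only [Bool.not_false] at h2
    omega
  · congr 1
    simp only [Bool.not_true] at h2
    omega

/-- wrong crossings which are far apart: the state is unbalanced, strictly on mixed sets -/
theorem thm_SPF (h : D.FarApart X s) : D.Unbalanced s ∧ MixedStrict D s := by
  classical
  have key : ∀ Z : Finset (Fin n), D.IsCycleUnion s Z → (Z.filter fun c => s c ≠ X).Nonempty →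
      D.excess s Z + 2 < 2 * |(num s true Z : ℤ) - num s false Z| := by
    intro Z hZ hm
    obtain ⟨F, hFZ, h1, h2⟩ := exists_fst h hZ hm
    have h3 := exn_sub (D := D) (s := s) hFZ
    rw [fst_exn h2] at h3
    have h4 := Finset.card_le_card hFZ
    rw [num_abs X Z, ← D.exn_eq, abs_of_nonneg (by omega)]
    omega
  refine ⟨fun Z hZ => ?_, fun Z hZ ht hf => ?_⟩
  · by_cases hm : (Z.filter fun c => s c ≠ X).Nonempty
    · have := key Z hZ hm
      omega
    · rw [Finset.not_nonempty_iff_eq_empty] at hm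
      obtain ⟨c, hc⟩ := hZ.1
      have hcX : s c = X := by
        by_contra hcX
        have : c ∈ Z.filter fun c => s c ≠ X := Finset.mem_filter.2 ⟨hc, hcX⟩
        rw [hm] at this
        exact Finset.notMem_empty _ this
      have h1 := h.1 c hcX
      have h2 := exn_sub (D := D) (s := s) (Finset.singleton_subset_iff.2 hc)
      have h3 : D.exn s {c} ≤ 1 := by
        unfold exn
        rw [Finset.card_singleton]
        omega
      rw [Finset.card_singleton] at h2
      rw [num_abs X Z, ← D.exn_eq, hm, Finset.card_empty]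
      have h4 : 0 < Z.card := Finset.card_pos.2 ⟨c, hc⟩
      rw [abs_of_nonneg (by simp)]
      push_cast
      omega
  · refine key Z hZ ?_
    obtain ⟨h1, h2⟩ := num_add (s := s) X Z
    apply Finset.card_pos.1
    cases X
    · simp only [Bool.not_false] at h2
      omega
    · simp only [Bool.not_true] at h2
      omega

end Pool.Agent.Helper16.Sparse
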