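import Pool.Agent.Helper16.Sparse.St

set_option autoImplicit false

/-!
# Sparse states of knotoid diagrams: the theorem
-/

namespace Pool.Agent.Helper16.Sparse

open LaurentPolynomial Pool.Agent.Helper16.Knotoid Pool.Agent.Helper16.Knotoid.GaussDiagram
open scoped symmDiff

private theorem spm_core (hSPD : St_SPD) (hSPK : St_SPK) {n : ℕ} {D : GaussDiagram n}
    (hD : D.Planar) (hf : D.normalizedBracket = 1) {s : Fin n → Bool} (hU : D.Unbalanced s)
    (hS : MixedStrict D s) : R1Trivial D.word := by
  classical
  obtain ⟨T, hT, hT1⟩ := D.exists_tree s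
  obtain ⟨W⟩ := D.exists_chain hT1
  have hnc := W.noncrossing hD
  set M := W.slit.mat with hM
  have hc : ∀ S, D.comps (sw s S) + rk M (T ∆ S) = 1 + (T ∆ S).card := by
    intro S
    have h1 := W.comps_sw (T ∆ S)
    rw [sw_sw, symmDiff_symmDiff_cancel_left] at h1
    exact h1
  have hTcard : D.comps s + rk M T = 1 + T.card := by
    have h1 := hc ∅
    have h2 : T ∆ (∅ : Finset (Fin n)) = T := by ext x; simp [Finset.mem_symmDiff]
    rw [h2, sw_empty] at h1
    exact h1
  have hrkT : rk M T = 0 := by omega
  have htree : ∀ s ∈ T, ∀ t ∈ T, M s t = 0 := by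
    intro s hs t ht
    by_contra h
    have := one_le_rk (M := M) hs ht h
    omega
  have hadeq : ∀ e ∉ T, M e e = 1 ∨ ∃ t ∈ T, M t e = 1 := by
    intro e he
    by_contra h
    push Not at h
    have h1 : M e e = 0 := zmod2_ne_one.1 h.1
    have h2 : ∀ t ∈ T, M t e = 0 := fun t ht => zmod2_ne_one.1 (h.2 t ht)
    have h3 := hc {e}
    have h4 : T ∆ {e} = insert e T := by
      ext x
      simp only [Finset.mem_symmDiff, Finset.mem_singleton, Finset.mem_insert]
      constructor
      · rintro (⟨h, -⟩ | ⟨h, -⟩)
        · exact Or.inr h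
        · exact Or.inl h
      · rintro (h | h)
        · exact Or.inr ⟨h, fun h' => he (h ▸ h')⟩
        · exact Or.inl ⟨h, fun h' => he (h' ▸ h)⟩
    have h5 : rk M (insert e T) = 0 := by
      apply rk_eq_zero_of
      intro a ha b hb
      rw [Finset.mem_insert] at ha hb
      rcases ha with rfl | ha <;> rcases hb with rfl | hb
      · exact h1
      · rw [hM, W.slit.mat_symm]; exact h2 b hb
      · exact h2 a ha
      · exact htree a ha b hb
    rw [h4, h5, Finset.card_insert_of_notMem he] at h3
    have h6 : sw s {e} = change s {e} := rfl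
    rw [h6] at h3
    -- `{e}` is a union of cycles
    have hcyc : D.IsCycleUnion s {e} := by
      by_contra hn
      have h7 : D.Sep s {e} e := by
        refine D.exists_sep (Finset.mem_singleton_self e) fun C hC hE heC => hn ?_
        refine ⟨Finset.singleton_nonempty e, fun c hce => ?_⟩
        rw [Finset.mem_singleton] at hce
        subst hce
        exact ⟨C, hC, hE, heC⟩
      have h8 : D.Sep s ∅ e := Sep.mono D h7 (Finset.empty_subset _)
      have h9 := Sep.comps D h8 (Finset.notMem_empty e)
      rw [insert_empty_eq, change_empty] at h9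
      omega
    have h7 := hU {e} hcyc
    have h8 : |(num s true {e} : ℤ) - num s false {e}| = 1 := by
      unfold num
      cases hse : s e <;> simp [Finset.filter_singleton, hse]
    unfold excess at h7
    rw [h8, Finset.card_singleton] at h7
    push_cast at h7
    omega
  have hA := hnc.adapted htree hadeq
  -- the excess and the defect
  have hexn : ∀ S, D.exn s S + defect M T S = 2 * S.card := by
    intro S
    have h1 := hc S
    have h2 := symmDiff_card T S
    have h3 := D.ex_add s S
    have h4 : sw s S = change s S := rfl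
    rw [h4] at h1
    unfold exn defect
    omega
  obtain ⟨ε, hε⟩ := D.bracket_of_f hf
  have hle := D.comps_le s
  have hβ : (n + 1 - D.comps s) + D.comps s = n + 1 := by omega
  have hmono := D.KK_mono s hβ hε
  have key : ∃ X : Bool, (D.KK s).coeff (if X then -2 else 2) = 0 ∧
      (D.KK s).coeff (if X then -4 else 4) = ((n + 1 - D.comps s : ℕ) : ℤ) := by
    rcases D.KK_cases hU hβ hε with ⟨h1, h2⟩ | ⟨h1, h2⟩
    · refine ⟨true, ?_, h2⟩
      simp only [if_true]
      rw [hmono]
      have h3 : (-2 : ℤ) + 3 * Jones.sg s Finset.univ - 3 * D.writhe =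
          2 * ((n + 1 - D.comps s : ℕ) : ℤ) - 2 := by omega
      rw [h3, coeff_dd_pow_two, mul_zero]
    · refine ⟨false, ?_, h2⟩
      simp only [Bool.false_eq_true, if_false]
      rw [hmono]
      have h3 : (2 : ℤ) + 3 * Jones.sg s Finset.univ - 3 * D.writhe =
          -(2 * ((n + 1 - D.comps s : ℕ) : ℤ) - 2) := by omega
      rw [h3, Jones.coeff_dd_neg, coeff_dd_pow_two, mul_zero]
  obtain ⟨X, hK2, hK4⟩ := key
  set P : Finset (Fin n) := Finset.univ.filter fun c => s c = X with hP
  have hmemP : ∀ c, c ∈ P ↔ s c = X := fun c => by rw [hP]; simp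
  obtain ⟨k2, k4⟩ := hSPK n D s X P hmemP hU hS (fun Z _ hZ => by
    have h1 : 1 ≤ defect M T Z := hA.one_le_defect hZ
    have h2 := hexn Z
    omega)
  have e1 : P.powerset.filter (fun Z => D.exn s Z + 1 = 2 * Z.card) =
      P.powerset.filter (fun Z => defect M T Z = 1) := by
    refine Finset.filter_congr fun Z _ => ?_
    have := hexn Z
    omega
  have e2 : P.powerset.filter (fun Z => D.exn s Z + 2 = 2 * Z.card) =
      P.powerset.filter (fun Z => defect M T Z = 2) := by
    refine Finset.filter_congr fun Z _ => ?_
    have := hexn Z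
    omega
  rw [hK2, e1] at k2
  rw [hK4, e2] at k4
  have hPc : (Pᶜ.card : ℤ) = n - P.card := by
    have h1 := Finset.card_compl_add_card P
    rw [Fintype.card_fin] at h1
    omega
  obtain ⟨-, hpar⟩ := hSPD (Fin n) (2 * n) W.slit hnc T P htree hadeq (by linarith) (by
    rw [hPc]
    have h1 : ((n + 1 - D.comps s : ℕ) : ℤ) = (n : ℤ) - T.card := by omega
    linarith)
  -- all chords are one-sided
  have hself : ∀ e, M e e = 0 := fun e => by
    by_cases he : e ∈ T
    · exact htree e he e he
    · exact (hpar e he).1
  have hsame : ∀ e, W.slit.sl e = W.slit.sr e := fun e => W.slit.mat_self_eq_zero.1 (hself e)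
  have hor := Slit.orient (C := W.slit) htree hpar W.dir (W.dir_castSucc hsame)
    (W.dir_succ hsame) (W.connected hsame)
  have hsign : ∀ e, D.sign e = s e := by
    intro e
    have h1 := hor e
    have h2 := W.dir_change e
    have h3 : (W.slit.l e) = W.l e := rfl
    rw [h3, h2] at h1
    have h4 := add_left_cancel h1
    have h5 : sw s T e = if e ∈ T then !(s e) else s e := rfl
    rw [h5] at h4
    by_cases he : e ∈ T
    · rw [if_pos he, if_pos he] at h4
      by_contra h6
      have h7 : (!(s e)) = D.sign e := by
        revert h6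
        cases D.sign e <;> cases s e <;> simp
      rw [if_pos h7] at h4
      simp at h4
    · rw [if_neg he, if_neg he] at h4
      by_contra h6
      rw [if_neg (Ne.symm h6)] at h4
      simp at h4
  have hs : s = D.sign := funext fun e => (hsign e).symm
  rw [hs] at hU
  exact unb_seifert hf hU

theorem thm_SPM (hSPU : St_SPU) (hSPD : St_SPD) (hSPK : St_SPK) : St_SPM := by
  rintro n D hD ⟨ε, k, hf'⟩ ⟨s, hU, hs⟩
  have hf : D.normalizedBracket = 1 := by
    obtain ⟨h1, h2⟩ := hSPU n D ε k hf'
    rw [hf', h1, h2, T_zero, map_one, one_mul]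
  rcases hs with hs | hS
  · rw [hs] at hU
    exact unb_seifert hf hU
  · exact spm_core hSPD hSPK hD hf hU hS

end Pool.Agent.Helper16.Sparse
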