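import Pool.Agent.Helper16.KUnb.Main
import Pool.Agent.Helper16.Sparse.FarDefs

set_option autoImplicit false

/-!
# Sparse states of knotoid diagrams: the statements of the modules

Plan. `s` a state, `G_s` its state graph, `e(Z) = D.excess s Z` (as a natural number
`D.exn s Z`), `P` the set of the crossings with the smoothing `X`, `N` the other ones. If `f_D = 1`
the resummed bracket `D.KK s` is `(1 + A^(-4))^β` (or the mirror image), and the coefficients at
`A^(-2)`, `A^(-4)` only see the sets `Z` of crossings with the smoothing `X` (`St_SPK`). The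
combinatorics of chords of an arc (`St_SPD`) then shows that the crossings of `N` are bridges and
that all crossings are parallel to a crossing of the tree; the orientation argument of
`Knotoid/Main.lean` shows that `s` is the Seifert state, and `unb_seifert` ends the proof.
-/

namespace Pool.Agent.Helper16.Sparse

open LaurentPolynomial Pool.Agent.Helper16.Knotoid
open scoped symmDiff

/-- [SPU] (1.5 h, no other module) A normalized bracket which is a monomial is `1`.

Proof. Let `Λ = D.lam` (symmetric, zero diagonal, over `ZMod 2`). `D.comps s = 1 + dim ker (Λ + 1_U)`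
with `U = D.Us s` the set of the unoriented smoothings (`comps_eq`, `mem_ker_gmat` in
`Knotoid/Bound.lean`; `x` is in the kernel iff `∀ c, Lv D.lam x c = if c ∈ U then x c else 0`), and
`f = ∑_s ∏_c wt c (s c) * dd ^ (comps s - 1)` (`f_eq`, see the use in `Bound.lean`), where an oriented
smoothing at a crossing of sign `w_c = ±1` has weight `-A^(-2 w_c)`, an unoriented one
`-A^(-4 w_c)`. At `A = 1`: weights `-1`, `dd = -2`, derivative of `dd` at `1` is `0`.
(1) Linear algebra: for every finite type `ι` and `Λ : ι → ι → ZMod 2` symmetric with zero diagonal,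
with `K Λ U = {x | ∀ i, ∑ j, Λ i j * x j = if i ∈ U then x i else 0}`:
`∑ U : Finset ι, (-2) ^ dim (K Λ U) = (-1) ^ card ι`. Induction on `card ι`, fix `c : ι`.
`c ∈ U`: the equation at `c` says `x c = ∑_{j ≠ c} Λ c j x j`; eliminating `x c`,
`K Λ U ≃ K Λ' U'` on `{i // i ≠ c}` with `Λ' i j = Λ i j + Λ i c Λ c j` for `i ≠ j`, `Λ' i i = 0`,
`U' = U Δ {i | Λ i c = 1}`: the sum over these `U` is `(-1) ^ (card ι - 1)`.
`c ∉ U`, `Λ c = 0`: `x c` is free, the sum is `-2 (-1) ^ (card ι - 1)`.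
`c ∉ U`, `Λ c d = 1`: eliminate `x c`, `x d` (equations at `d` and at `c`): if `d ∉ U` then
`Λ' i j = Λ i j + Λ i c Λ d j + Λ i d Λ c j` and `U' = U`; if `d ∈ U` then
`Λ' i j = Λ i j + Λ i c (Λ c j + Λ d j) + Λ i d Λ c j` off the diagonal and
`U' = U \ {d} Δ {i | Λ i c = 1}`; each part of the sum is `(-1) ^ (card ι - 2)`.
So the sum over `U ∌ c` is `-2 (-1) ^ (card ι - 1)` in all cases, the sum over `U ∋ c` is
`(-1) ^ (card ι - 1)`, in total `(-1) ^ card ι`.
(2) Hence `f(1) = 1` (so `ε = 1`), and `f'(1) = ∑_c (-w_c) (2 ∑_{U ∌ c} + 4 ∑_{U ∋ c}) (-1)^n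
(-2)^dim = 0` because `2 * (-2) + 4 * 1 = 0`; so `ε k = 0`. (Evaluation and derivative at `1` as
additive maps on `LaurentPolynomial ℤ`: `p ↦ p.sum fun _ a => a`, `p ↦ p.sum fun j a => j * a`.) -/
def St_SPU : Prop := ∀ (n : ℕ) (D : GaussDiagram n) (ε k : ℤ),
  D.normalizedBracket = C ε * T k → ε = 1 ∧ k = 0

/-- [SPD] (1 h, no other module) The combinatorics of the defects. `P` is the set of the crossings
with the majority smoothing.

Proof. As `Slit.Noncrossing.monomial` (`Knotoid/Core.lean`), `hA := hC.adapted hT hadeq`.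
(1) No loops in `P`: `L := loops C.mat T ∩ P`. The sets `S ⊆ P` of defect one are
`cliques C.mat L` (`hA.defect_eq_one`), so `sum_cliques` (as in `Core.lean`) gives
`∑ ≤ -1` if `L ≠ ∅`, against the hypothesis. So `L = ∅`.
(2) For `S ⊆ P` (so `S` contains no loops): `defect = 2` iff `S` is nonempty and all keys
`key C.mat T e`, `e ∈ S`, are equal: this is `Adapted.defect_eq_two` (`Knotoid/Rank.lean`), where the
hypothesis `loops M T = ∅` is only used for elements of `S` (copy the proof with the hypothesis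
`∀ e ∈ S, e ∉ loops M T`).
(3) `sum_fibres` for the restriction of `key` to `P` (`ι := {x // x ∈ P}` or copy its proof):
the second sum is `- #(P.image (key C.mat T))`. So `#(P.image key) + #Pᶜ = #T`. The keys `({t}, 0)`
of the `t ∈ T ∩ P` are different, so `#(T ∩ P) ≤ #(P.image key)`, hence `#Pᶜ ≤ #(T \ P)`, so `Pᶜ ⊆ T`
and `P.image key` is the set of the `({t}, 0)`, `t ∈ T ∩ P`. For `e ∉ T`: `e ∈ P`, and
`key e = ({t}, 0)` says the rest (as at the end of the proof of `monomial`). -/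
def St_SPD : Prop := ∀ (ι : Type) [Fintype ι] [DecidableEq ι] (N : ℕ) (C : Slit ι N),
  C.Noncrossing → ∀ T P : Finset ι, (∀ s ∈ T, ∀ t ∈ T, C.mat s t = 0) →
  (∀ e ∉ T, C.mat e e = 1 ∨ ∃ t ∈ T, C.mat t e = 1) →
  (∑ S ∈ P.powerset.filter (fun S => defect C.mat T S = 1), (-1 : ℤ) ^ S.card = 0) →
  (∑ S ∈ P.powerset.filter (fun S => defect C.mat T S = 2), (-1 : ℤ) ^ S.card =
    (Pᶜ.card : ℤ) - T.card) →
  Pᶜ ⊆ T ∧
    ∀ e ∉ T, C.mat e e = 0 ∧ ∃ t ∈ T, C.mat t e = 1 ∧ ∀ s ∈ T, s ≠ t → C.mat s e = 0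

/-- [SPK] (1 h, no other module) Two coefficients of the resummed bracket of a sparse state. `P` is the
set of the crossings with the smoothing `X`.

Proof. Let `σ = 1` if `X = true` and `σ = -1` otherwise, `j = -2 σ` or `j = -4 σ`. The coefficient of
the term `Z` of `D.KK s` is that of `D.hh s Z` at `j + 4 (A(Z) - B(Z))` (see `KK_term_coeff`,
`Expand.lean`). Terms with `Z ⊄ P`: if `Z` is not a union of cycles, then `hh s Z = 0` (`exists_sep`,
`hh_sep`). If it is one and mixed, then `|j + 4 (A - B)| > 2 e(Z)` by `MixedStrict`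
(`|j| ≤ 4`, `hh_coeff`). If it contains no crossing of `P`: `|j + 4 (A - B)| = |j| + 4 |Z|`
`> 2 e(Z)` by `Unbalanced`. Terms with `Z ⊆ P`: `j + 4 (A - B) = σ (4 |Z| - |j|)`, and
`e(Z) ≤ 2 |Z| - 1` if `Z` is nonempty (hypothesis `hP`); `hh s Z` is invariant under `A ↦ A⁻¹`
(or treat both signs). `hh s Z = ∑_{Y ⊆ Z} (-1)^|Y| dd ^ e(Y)`; for nonempty `Y ≠ Z`,
`2 e(Y) ≤ 4 |Y| - 2 ≤ 4 |Z| - 6`, no contribution; `Y = ∅` contributes (the constant `1`) only for
`4 |Z| = |j|`, i.e. for `|j| = 4`, `|Z| = 1`: in total `P.card`; `Y = Z ≠ ∅`: the coefficient of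
`dd ^ e` at `4 |Z| - |j|`: for `|j| = 2` it is `-1` if `e = 2 |Z| - 1` and `0` otherwise
(`coeff_dd_pow_top`, `coeff_dd_pow_of_lt`, and parity is not needed); for `|j| = 4` it is `1` if
`e = 2 |Z| - 2`, `0` if `e = 2 |Z| - 1` (`coeff_dd_pow_two`), `0` if `e` is smaller. -/
def St_SPK : Prop := ∀ (n : ℕ) (D : GaussDiagram n) (s : Fin n → Bool) (X : Bool)
  (P : Finset (Fin n)), (∀ c, c ∈ P ↔ s c = X) → D.Unbalanced s → MixedStrict D s →
  (∀ Z ⊆ P, Z.Nonempty → D.exn s Z + 1 ≤ 2 * Z.card) →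
  ((D.KK s).coeff (if X then -2 else 2) =
    -∑ Z ∈ P.powerset.filter (fun Z => D.exn s Z + 1 = 2 * Z.card), (-1 : ℤ) ^ Z.card) ∧
  ((D.KK s).coeff (if X then -4 else 4) =
    P.card + ∑ Z ∈ P.powerset.filter (fun Z => D.exn s Z + 2 = 2 * Z.card), (-1 : ℤ) ^ Z.card)

/-- [SPM] (architect, uses `St_SPU`, `St_SPD`, `St_SPK`) The theorem. -/
def St_SPM : Prop := ∀ (n : ℕ) (D : GaussDiagram n), D.Planar → (∃ ε k : ℤ,
  D.normalizedBracket = C ε * T k) →
  (∃ s : Fin n → Bool, D.Unbalanced s ∧ (s = D.sign ∨ MixedStrict D s)) → R1Trivial D.word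

end Pool.Agent.Helper16.Sparse
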